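import Mathlib
import Pool.Agent.H32P3.Data

/-!
Kernel checks for the closure of the list of 4-pole types under all gluings.
-/

set_option autoImplicit false
set_option maxRecDepth 100000

namespace H32P3

/-- code of a state -/
def cd (x y z w : ZMod 3) : ℕ := 27 * x.val + 9 * y.val + 3 * z.val + w.val

/-- bit of a mask at a state -/
def bt (m : ℕ) (x y z w : ZMod 3) : Bool := m.testBit (cd x y z w)

/-- oriented types with total `r` -/
def OT (r : ZMod 3) : List (ℕ × ℕ × ℕ × ℕ) :=
  match r.val with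
  | 0 => OT0
  | 1 => OT1
  | _ => OT2

/-- implication check along a table -/
def imp (tab : List (ℕ × ℕ)) (a b : ℕ) : Bool :=
  tab.all (fun p => !(Nat.testBit a p.1) || Nat.testBit b p.2)

def chkTN (L : List (ℕ × ℕ × ℕ × ℕ)) : Bool :=
  L.all (fun q => imp tabT q.2.1 q.1 && imp tabN q.2.2.1 q.1)

theorem chkTN0 : chkTN OT0 = true := by decide +kernel
theorem chkTN1 : chkTN OT1 = true := by decide +kernel
theorem chkTN2 : chkTN OT2 = true := by decide +kernel

/-- label after the swap of positions 0,1 (and also 2,3) -/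
def labA (l : ℕ) : ℕ := match l with
  | 0 => 0
  | 1 => 1
  | 2 => 3
  | 3 => 2
  | _ => 4

/-- label after the swap of positions 1,2 -/
def labB (l : ℕ) : ℕ := match l with
  | 0 => 0
  | 1 => 2
  | 2 => 1
  | 3 => 3
  | _ => 4

def chkS (lab : ℕ → ℕ) (tab : List (ℕ × ℕ)) (L : List (ℕ × ℕ × ℕ × ℕ)) : Bool :=
  L.all (fun q => L.any (fun q' => Nat.beq (lab q.2.2.2) q'.2.2.2 && imp tab q'.1 q.1))

theorem chkSA0 : chkS labA tabA OT0 = true := by decide +kernel
theorem chkSA1 : chkS labA tabA OT1 = true := by decide +kernel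
theorem chkSA2 : chkS labA tabA OT2 = true := by decide +kernel
theorem chkSB0 : chkS labB tabB OT0 = true := by decide +kernel
theorem chkSB1 : chkS labB tabB OT1 = true := by decide +kernel
theorem chkSB2 : chkS labB tabB OT2 = true := by decide +kernel
theorem chkSC0 : chkS labA tabC OT0 = true := by decide +kernel
theorem chkSC1 : chkS labA tabC OT1 = true := by decide +kernel
theorem chkSC2 : chkS labA tabC OT2 = true := by decide +kernel

/-- bits 0, 9, ..., 72 -/
def M0 : ℕ := 4731607904558235517441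

def tm (a b k : ℕ) : ℕ :=
  Nat.mul (Nat.land (Nat.shiftRight a k) M0) (Nat.land (Nat.shiftRight b (Nat.mul 9 k)) 511)

def prd (a b : ℕ) : ℕ :=
  Nat.lor (tm a b 0) (Nat.lor (tm a b 1) (Nat.lor (tm a b 2) (Nat.lor (tm a b 3)
    (Nat.lor (tm a b 4) (Nat.lor (tm a b 5) (Nat.lor (tm a b 6) (Nat.lor (tm a b 7)
      (tm a b 8))))))))

def okc (c : ℕ) (thin : Bool) (L : List (ℕ × ℕ × ℕ × ℕ)) : Bool :=
  L.any (fun t => Nat.beq (Nat.land c t.1) t.1 &&
    (Nat.beq t.2.2.2 0 || (thin && Nat.beq t.2.2.2 1)))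

def chk44 (LA LB LC : List (ℕ × ℕ × ℕ × ℕ)) : Bool :=
  LA.all (fun a => LB.all (fun b => (Nat.beq a.2.2.2 1 && Nat.beq b.2.2.2 1) ||
    okc (prd a.1 b.2.1) (Nat.beq a.2.2.2 1 || Nat.beq b.2.2.2 1) LC))

theorem chk44_00 : chk44 OT0 OT0 OT0 = true := by decide +kernel
theorem chk44_01 : chk44 OT0 OT1 OT1 = true := by decide +kernel
theorem chk44_02 : chk44 OT0 OT2 OT2 = true := by decide +kernel
theorem chk44_10 : chk44 OT1 OT0 OT1 = true := by decide +kernel
theorem chk44_11 : chk44 OT1 OT1 OT2 = true := by decide +kernel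
theorem chk44_12 : chk44 OT1 OT2 OT0 = true := by decide +kernel
theorem chk44_20 : chk44 OT2 OT0 OT2 = true := by decide +kernel
theorem chk44_21 : chk44 OT2 OT1 OT0 = true := by decide +kernel
theorem chk44_22 : chk44 OT2 OT2 OT1 = true := by decide +kernel

/-- closing two 4-poles -/
def chkCl (LA LB : List (ℕ × ℕ × ℕ × ℕ)) : Bool :=
  LA.all (fun a => LB.all (fun b =>
    (Nat.beq a.2.2.2 b.2.2.2 && !(Nat.beq a.2.2.2 0)) || !(Nat.beq (Nat.land a.1 b.2.2.1) 0)))

theorem chkCl_00 : chkCl OT0 OT0 = true := by decide +kernel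
theorem chkCl_12 : chkCl OT1 OT2 = true := by decide +kernel
theorem chkCl_21 : chkCl OT2 OT1 = true := by decide +kernel

/-- gluing a 3-pole and a 4-pole along two edges -/
def chk34 (T : List (List ℕ)) (L : List (ℕ × ℕ × ℕ × ℕ)) : Bool :=
  L.all (fun q => Nat.beq q.2.2.2 1 || T.all (fun l => l.any (fun n => Nat.testBit q.2.1 n)))

theorem chk34_00 : chk34 tab34_00 OT0 = true := by decide +kernel
theorem chk34_01 : chk34 tab34_01 OT1 = true := by decide +kernel
theorem chk34_02 : chk34 tab34_02 OT2 = true := by decide +kernel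
theorem chk34_10 : chk34 tab34_10 OT0 = true := by decide +kernel
theorem chk34_11 : chk34 tab34_11 OT1 = true := by decide +kernel
theorem chk34_12 : chk34 tab34_12 OT2 = true := by decide +kernel
theorem chk34_20 : chk34 tab34_20 OT0 = true := by decide +kernel
theorem chk34_21 : chk34 tab34_21 OT1 = true := by decide +kernel
theorem chk34_22 : chk34 tab34_22 OT2 = true := by decide +kernel

end H32P3
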