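import Mathlib

/-!
Extendable boundary states of a vertex set in a graph, over `ZMod 3`.
-/

set_option autoImplicit false

namespace H32P3

open Finset

variable {V : Type*} [Fintype V] [DecidableEq V] {G : SimpleGraph V} [DecidableRel G.Adj]

/-- boundary darts of a vertex set, pointing outwards -/
def bd (G : SimpleGraph V) [DecidableRel G.Adj] (A : Finset V) : Finset (V × V) :=
  Finset.univ.filter (fun p => p.1 ∈ A ∧ p.2 ∉ A ∧ G.Adj p.1 p.2)

/-- darts from `A` to `B` -/
def cr (G : SimpleGraph V) [DecidableRel G.Adj] (A B : Finset V) : Finset (V × V) :=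
  Finset.univ.filter (fun p => p.1 ∈ A ∧ p.2 ∈ B ∧ G.Adj p.1 p.2)

theorem mem_bd {A : Finset V} {p : V × V} :
    p ∈ bd G A ↔ p.1 ∈ A ∧ p.2 ∉ A ∧ G.Adj p.1 p.2 := by
  simp [bd]

theorem mem_cr {A B : Finset V} {p : V × V} :
    p ∈ cr G A B ↔ p.1 ∈ A ∧ p.2 ∈ B ∧ G.Adj p.1 p.2 := by
  simp [cr]

/-- the boundary values `b` extend to a skew function with divergence `t` in `A`, which has a zero
at every vertex of `A` -/
def Ext (G : SimpleGraph V) [DecidableRel G.Adj] (t : V → ZMod 3) (A : Finset V)
    (b : V × V → ZMod 3) : Prop :=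
  ∃ y : V → V → ZMod 3,
    (∀ u ∈ A, ∀ v ∈ A, y u v = - y v u) ∧
    (∀ u ∈ A, ∀ v, ¬ G.Adj u v → y u v = 0) ∧
    (∀ p ∈ bd G A, y p.1 p.2 = b p) ∧
    (∀ u ∈ A, ∑ v, y u v = t u) ∧
    (∀ u ∈ A, ∃ v, G.Adj u v ∧ y u v = 0)

theorem Ext.congr {t : V → ZMod 3} {A : Finset V} {b b' : V × V → ZMod 3}
    (h : Ext G t A b) (hb : ∀ p ∈ bd G A, b p = b' p) : Ext G t A b' := by
  obtain ⟨y, h1, h2, h3, h4, h5⟩ := h
  exact ⟨y, h1, h2, fun p hp => (h3 p hp).trans (hb p hp), h4, h5⟩

theorem Ext.glue {t : V → ZMod 3} {A B : Finset V} {bA bB b : V × V → ZMod 3}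
    (hd : Disjoint A B) (hA : Ext G t A bA) (hB : Ext G t B bB)
    (h1 : ∀ p ∈ bd G (A ∪ B), p.1 ∈ A → bA p = b p)
    (h2 : ∀ p ∈ bd G (A ∪ B), p.1 ∈ B → bB p = b p)
    (h3 : ∀ p ∈ cr G A B, bA p = - bB p.swap) :
    Ext G t (A ∪ B) b := by
  obtain ⟨y, ya, yn, yb, ys, yz⟩ := hA
  obtain ⟨w, wa, wn, wb, ws, wz⟩ := hB
  have hdis : ∀ x, x ∈ A → x ∉ B := fun x hx hx' => (Finset.disjoint_left.mp hd) hx hx'
  have key : ∀ u ∈ A, ∀ v ∈ B, y u v = - w v u := by
    intro u hu v hv
    by_cases hadj : G.Adj u v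
    · have e1 := yb (u, v) (mem_bd.mpr ⟨hu, fun hc => hdis v hc hv, hadj⟩)
      have e2 := wb (v, u) (mem_bd.mpr ⟨hv, hdis u hu, hadj.symm⟩)
      have e3 := h3 (u, v) (mem_cr.mpr ⟨hu, hv, hadj⟩)
      simp only at e1 e2
      rw [e1, e3, e2]
      rfl
    · rw [yn u hu v hadj, wn v hv u (fun hc => hadj hc.symm), neg_zero]
  refine ⟨fun u v => if u ∈ A then y u v else w u v, ?_, ?_, ?_, ?_, ?_⟩
  · intro u hu v hv
    rw [Finset.mem_union] at hu hv
    by_cases hu' : u ∈ A
    · by_cases hv' : v ∈ A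
      · simp only [hu', hv', if_true]; exact ya u hu' v hv'
      · simp only [hu', hv', if_true, if_false]
        exact key u hu' v (hv.resolve_left hv')
    · by_cases hv' : v ∈ A
      · simp only [hu', hv', if_true, if_false]
        rw [key v hv' u (hu.resolve_left hu'), neg_neg]
      · simp only [hu', hv', if_false]
        exact wa u (hu.resolve_left hu') v (hv.resolve_left hv')
  · intro u hu v hadj
    rw [Finset.mem_union] at hu
    by_cases hu' : u ∈ A
    · simp only [hu', if_true]; exact yn u hu' v hadj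
    · simp only [hu', if_false]; exact wn u (hu.resolve_left hu') v hadj
  · intro p hp
    have hp' := mem_bd.mp hp
    rw [Finset.mem_union, Finset.mem_union] at hp'
    obtain ⟨hp1, hp2, hp3⟩ := hp'
    by_cases hu' : p.1 ∈ A
    · simp only [hu', if_true]
      rw [yb p (mem_bd.mpr ⟨hu', fun hc => hp2 (Or.inl hc), hp3⟩)]
      exact h1 p hp hu'
    · simp only [hu', if_false]
      have hB' := hp1.resolve_left hu'
      rw [wb p (mem_bd.mpr ⟨hB', fun hc => hp2 (Or.inr hc), hp3⟩)]
      exact h2 p hp hB'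
  · intro u hu
    rw [Finset.mem_union] at hu
    by_cases hu' : u ∈ A
    · simp only [hu', if_true]; exact ys u hu'
    · simp only [hu', if_false]; exact ws u (hu.resolve_left hu')
  · intro u hu
    rw [Finset.mem_union] at hu
    by_cases hu' : u ∈ A
    · simp only [hu', if_true]; exact yz u hu'
    · simp only [hu', if_false]; exact wz u (hu.resolve_left hu')

/-- a single vertex -/
theorem Ext.single {t : V → ZMod 3} {v : V} {b : V × V → ZMod 3}
    (hs : ∑ p ∈ bd G {v}, b p = t v) (hz : ∃ p ∈ bd G {v}, b p = 0) : Ext G t {v} b := by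
  refine ⟨fun u w => if G.Adj u w then b (u, w) else 0, ?_, ?_, ?_, ?_, ?_⟩
  · intro u hu w hw
    rw [Finset.mem_singleton] at hu hw
    subst hu; subst hw
    simp
  · intro u _ w hadj
    simp [hadj]
  · intro p hp
    have := (mem_bd.mp hp).2.2
    simp [this]
  · intro u hu
    rw [Finset.mem_singleton] at hu
    subst hu
    rw [← hs]
    have hbd : bd G {u} = (Finset.univ.filter (fun w => G.Adj u w)).image (fun w => (u, w)) := by
      ext p
      rw [mem_bd]
      simp only [Finset.mem_singleton, Finset.mem_image, Finset.mem_filter, Finset.mem_univ,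
        true_and]
      constructor
      · rintro ⟨h1, h2, h3⟩
        exact ⟨p.2, h1 ▸ h3, by rw [← h1]⟩
      · rintro ⟨w, hw, rfl⟩
        exact ⟨rfl, fun hc => hw.ne hc.symm, hw⟩
    rw [hbd, Finset.sum_image (by intro x _ y _ hxy; exact (Prod.mk.inj hxy).2),
      Finset.sum_filter]
  · intro u hu
    rw [Finset.mem_singleton] at hu
    subst hu
    obtain ⟨p, hp, hp0⟩ := hz
    have h1 := mem_bd.mp hp
    rw [Finset.mem_singleton] at h1
    refine ⟨p.2, h1.1 ▸ h1.2.2, ?_⟩
    have h2 : G.Adj u p.2 := h1.1 ▸ h1.2.2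
    show (if G.Adj u p.2 then b (u, p.2) else 0) = 0
    rw [if_pos h2, ← hp0, show (u, p.2) = p from Prod.ext h1.1.symm rfl]

/-! Counting boundary darts -/

theorem cr_swap_card (A B : Finset V) : (cr G A B).card = (cr G B A).card := by
  apply Finset.card_bij (fun p _ => p.swap)
  · intro p hp
    have := mem_cr.mp hp
    exact mem_cr.mpr ⟨this.2.1, this.1, this.2.2.symm⟩
  · intro p _ q _ h
    exact Prod.swap_injective h
  · intro p hp
    have := mem_cr.mp hp
    exact ⟨p.swap, mem_cr.mpr ⟨this.2.1, this.1, this.2.2.symm⟩, Prod.swap_swap p⟩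

theorem bd_left {A B : Finset V} (hd : Disjoint A B) :
    bd G A = (bd G (A ∪ B)).filter (fun p => p.1 ∈ A) ∪ cr G A B := by
  ext p
  rw [Finset.mem_union, Finset.mem_filter, mem_bd, mem_bd, mem_cr, Finset.mem_union,
    Finset.mem_union]
  constructor
  · rintro ⟨h1, h2, h3⟩
    by_cases h4 : p.2 ∈ B
    · exact Or.inr ⟨h1, h4, h3⟩
    · exact Or.inl ⟨⟨Or.inl h1, fun hc => hc.elim h2 h4, h3⟩, h1⟩
  · rintro (⟨⟨_, h2, h3⟩, h4⟩ | ⟨h1, h2, h3⟩)
    · exact ⟨h4, fun hc => h2 (Or.inl hc), h3⟩
    · exact ⟨h1, fun hc => (Finset.disjoint_left.mp hd) hc h2, h3⟩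

theorem bd_left_card {A B : Finset V} (hd : Disjoint A B) :
    (bd G A).card = ((bd G (A ∪ B)).filter (fun p => p.1 ∈ A)).card + (cr G A B).card := by
  conv_lhs => rw [bd_left hd]
  apply Finset.card_union_of_disjoint
  rw [Finset.disjoint_left]
  intro p hp hq
  have h1 := (mem_bd.mp (Finset.mem_filter.mp hp).1).2.1
  exact h1 (Finset.mem_union_right _ (mem_cr.mp hq).2.1)

theorem bd_right {A B : Finset V} (hd : Disjoint A B) :
    bd G B = (bd G (A ∪ B)).filter (fun p => p.1 ∈ B) ∪ cr G B A := by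
  have := bd_left (G := G) hd.symm
  rwa [Finset.union_comm B A] at this

theorem bd_right_card {A B : Finset V} (hd : Disjoint A B) :
    (bd G B).card = ((bd G (A ∪ B)).filter (fun p => p.1 ∈ B)).card + (cr G B A).card := by
  have := bd_left_card (G := G) hd.symm
  rwa [Finset.union_comm B A] at this

theorem bd_union {A B : Finset V} :
    bd G (A ∪ B) = (bd G (A ∪ B)).filter (fun p => p.1 ∈ A) ∪
      (bd G (A ∪ B)).filter (fun p => p.1 ∈ B) := by
  rw [← Finset.filter_or]
  symm
  rw [Finset.filter_eq_self]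
  intro p hp
  exact Finset.mem_union.mp (mem_bd.mp hp).1

theorem bd_union_card {A B : Finset V} (hd : Disjoint A B) :
    (bd G (A ∪ B)).card + 2 * (cr G A B).card = (bd G A).card + (bd G B).card := by
  have h1 := bd_left_card (G := G) hd
  have h2 := bd_right_card (G := G) hd
  have h3 : (bd G (A ∪ B)).card = ((bd G (A ∪ B)).filter (fun p => p.1 ∈ A)).card +
      ((bd G (A ∪ B)).filter (fun p => p.1 ∈ B)).card := by
    conv_lhs => rw [bd_union]
    apply Finset.card_union_of_disjoint
    rw [Finset.disjoint_left]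
    intro p hp hq
    exact (Finset.disjoint_left.mp hd) (Finset.mem_filter.mp hp).2 (Finset.mem_filter.mp hq).2
  rw [cr_swap_card B A] at h2
  omega

theorem bd_univ : bd G (Finset.univ : Finset V) = ∅ := by
  ext p
  rw [mem_bd]
  simp

/-- every nonempty proper vertex set has at least three boundary edges -/
def E3 (G : SimpleGraph V) [DecidableRel G.Adj] : Prop :=
  ∀ S : Finset V, S.Nonempty → S ≠ Finset.univ → 3 ≤ (bd G S).card

/-- from 3-connected and cubic to 3-edge-connected -/
theorem E3_of_connected (hcub : ∀ v : V, G.degree v = 3)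
    (hconn : ∀ S : Finset V, S.card ≤ 2 → (G.induce ((↑S : Set V)ᶜ)).Connected) : E3 G := by
  intro S hS hSu
  by_contra hlt
  push Not at hlt
  -- tails
  set X : Finset V := (bd G S).image Prod.fst with hX
  have hXcard : X.card ≤ 2 := le_trans Finset.card_image_le (by omega)
  have hXS : X ⊆ S := by
    intro x hx
    obtain ⟨p, hp, rfl⟩ := Finset.mem_image.mp hx
    exact (mem_bd.mp hp).1
  have hdeg : ∀ v : V, (Finset.univ.filter (fun w => G.Adj v w)).card = 3 := by
    intro v
    rw [← hcub v, ← SimpleGraph.card_neighborFinset_eq_degree]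
    congr 1
    ext w
    simp
  by_cases hsub : S ⊆ X
  · -- S = X has at most two vertices
    have hSX : S = X := Finset.Subset.antisymm hsub hXS
    have hScard : S.card ≤ 2 := hSX ▸ hXcard
    -- count darts out of S
    have hcount : (Finset.univ.filter (fun p : V × V => p.1 ∈ S ∧ G.Adj p.1 p.2)).card
        = 3 * S.card := by
      have h1 : Finset.univ.filter (fun p : V × V => p.1 ∈ S ∧ G.Adj p.1 p.2)
          = S.biUnion (fun v => (Finset.univ.filter (fun w => G.Adj v w)).image
              (fun w => (v, w))) := by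
        ext p
        simp only [Finset.mem_filter, Finset.mem_univ, true_and, Finset.mem_biUnion,
          Finset.mem_image]
        constructor
        · rintro ⟨h1, h2⟩
          exact ⟨p.1, h1, p.2, h2, rfl⟩
        · rintro ⟨v, hv, w, hw, rfl⟩
          exact ⟨hv, hw⟩
      rw [h1, Finset.card_biUnion]
      · rw [Finset.sum_congr rfl (fun v _ => ?_), Finset.sum_const, smul_eq_mul, Nat.mul_comm]
        rw [Finset.card_image_of_injective _ (fun a b h => (Prod.mk.inj h).2), hdeg v]
      · intro x _ y _ hxy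
        rw [Function.onFun, Finset.disjoint_left]
        intro p hp hq
        obtain ⟨_, _, rfl⟩ := Finset.mem_image.mp hp
        obtain ⟨_, _, h⟩ := Finset.mem_image.mp hq
        exact hxy (Prod.mk.inj h).1.symm
    have hsplit : Finset.univ.filter (fun p : V × V => p.1 ∈ S ∧ G.Adj p.1 p.2)
        = bd G S ∪ cr G S S := by
      ext p
      rw [Finset.mem_union, mem_bd, mem_cr]
      simp only [Finset.mem_filter, Finset.mem_univ, true_and]
      tauto
    have hin : (cr G S S).card ≤ S.card * (S.card - 1) := by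
      have h1 : cr G S S ⊆ S.offDiag := by
        intro p hp
        have := mem_cr.mp hp
        exact Finset.mem_offDiag.mpr ⟨this.1, this.2.1, this.2.2.ne⟩
      calc (cr G S S).card ≤ S.offDiag.card := Finset.card_le_card h1
        _ = S.card * S.card - S.card := Finset.offDiag_card S
        _ = S.card * (S.card - 1) := by rw [Nat.mul_sub, Nat.mul_one]
    have hpos : 0 < S.card := hS.card_pos
    have h4 : 3 * S.card ≤ (bd G S).card + (cr G S S).card := by
      rw [← hcount, hsplit]
      exact Finset.card_union_le _ _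
    interval_cases h5 : S.card <;> omega
  · -- there is a vertex of S outside X and a vertex outside S
    obtain ⟨u, huS, huX⟩ := Finset.not_subset.mp hsub
    obtain ⟨w, hw⟩ : ∃ w, w ∉ S := by
      by_contra hcon
      push Not at hcon
      exact hSu (Finset.eq_univ_of_forall hcon)
    have hc := hconn X hXcard
    have hwX : w ∉ X := fun h => hw (hXS h)
    have hu' : u ∈ ((↑X : Set V)ᶜ) := by simpa using huX
    have hw' : w ∈ ((↑X : Set V)ᶜ) := by simpa using hwX
    obtain ⟨walk⟩ := hc.preconnected ⟨u, hu'⟩ ⟨w, hw'⟩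
    have key : ∀ (a b : ((↑X : Set V)ᶜ : Set V)), (G.induce ((↑X : Set V)ᶜ)).Walk a b →
        (a : V) ∈ S → (b : V) ∈ S := by
      intro a b wk
      induction wk with
      | nil => exact id
      | @cons a' b' c' hab _ ih =>
        intro ha
        apply ih
        by_contra hb
        have hadj : G.Adj (a' : V) (b' : V) := hab
        have : (a' : V) ∈ X := Finset.mem_image.mpr ⟨((a' : V), (b' : V)),
          mem_bd.mpr ⟨ha, hb, hadj⟩, rfl⟩
        exact a'.2 (by exact_mod_cast this)
    exact hw (key _ _ walk huS)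

end H32P3
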