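import Mathlib
import Pool.Agent.H32P3.Checks

/-!
Meaning of the kernel checks.
-/

set_option autoImplicit false
set_option maxRecDepth 100000

namespace H32P3

theorem tabT_mem : ∀ x y z w : ZMod 3, (cd x y z w, cd z w (-x) (-y)) ∈ tabT := by
  decide +kernel

theorem tabN_mem : ∀ x y z w : ZMod 3, (cd x y z w, cd (-x) (-y) (-z) (-w)) ∈ tabN := by
  decide +kernel

theorem tabA_mem : ∀ x y z w : ZMod 3, (cd y x z w, cd x y z w) ∈ tabA := by
  decide +kernel

theorem tabB_mem : ∀ x y z w : ZMod 3, (cd x z y w, cd x y z w) ∈ tabB := by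
  decide +kernel

theorem tabC_mem : ∀ x y z w : ZMod 3, (cd x y w z, cd x y z w) ∈ tabC := by
  decide +kernel

theorem imp_spec {tab : List (ℕ × ℕ)} {a b : ℕ} (h : imp tab a b = true) {p : ℕ × ℕ}
    (hp : p ∈ tab) (ha : a.testBit p.1 = true) : b.testBit p.2 = true := by
  unfold imp at h
  rw [List.all_eq_true] at h
  have := h p hp
  simp only [Bool.or_eq_true, Bool.not_eq_true'] at this
  rcases this with h1 | h1
  · rw [ha] at h1; exact absurd h1 (by decide)
  · exact h1

theorem OT_cases (P : ZMod 3 → List (ℕ × ℕ × ℕ × ℕ) → Prop) (h0 : P 0 OT0) (h1 : P 1 OT1)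
    (h2 : P 2 OT2) (r : ZMod 3) : P r (OT r) := by
  fin_cases r
  · exact h0
  · exact h1
  · exact h2

theorem chkTN_all (r : ZMod 3) : chkTN (OT r) = true :=
  OT_cases (fun _ L => chkTN L = true) chkTN0 chkTN1 chkTN2 r

theorem tn_spec {r : ZMod 3} {q : ℕ × ℕ × ℕ × ℕ} (hq : q ∈ OT r) {x y z w : ZMod 3}
    (h : bt q.2.1 x y z w = true) : bt q.1 z w (-x) (-y) = true := by
  have h1 := chkTN_all r
  unfold chkTN at h1
  rw [List.all_eq_true] at h1
  have h2 := h1 q hq
  rw [Bool.and_eq_true] at h2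
  exact imp_spec h2.1 (tabT_mem x y z w) h

theorem nn_spec {r : ZMod 3} {q : ℕ × ℕ × ℕ × ℕ} (hq : q ∈ OT r) {x y z w : ZMod 3}
    (h : bt q.2.2.1 x y z w = true) : bt q.1 (-x) (-y) (-z) (-w) = true := by
  have h1 := chkTN_all r
  unfold chkTN at h1
  rw [List.all_eq_true] at h1
  have h2 := h1 q hq
  rw [Bool.and_eq_true] at h2
  exact imp_spec h2.2 (tabN_mem x y z w) h

theorem chkSA_all (r : ZMod 3) : chkS labA tabA (OT r) = true :=
  OT_cases (fun _ L => chkS labA tabA L = true) chkSA0 chkSA1 chkSA2 r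

theorem chkSB_all (r : ZMod 3) : chkS labB tabB (OT r) = true :=
  OT_cases (fun _ L => chkS labB tabB L = true) chkSB0 chkSB1 chkSB2 r

theorem chkSC_all (r : ZMod 3) : chkS labA tabC (OT r) = true :=
  OT_cases (fun _ L => chkS labA tabC L = true) chkSC0 chkSC1 chkSC2 r

theorem chkS_spec {lab : ℕ → ℕ} {tab : List (ℕ × ℕ)} {L : List (ℕ × ℕ × ℕ × ℕ)}
    (h : chkS lab tab L = true) {q : ℕ × ℕ × ℕ × ℕ} (hq : q ∈ L) :
    ∃ q' ∈ L, lab q.2.2.2 = q'.2.2.2 ∧ imp tab q'.1 q.1 = true := by
  unfold chkS at h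
  rw [List.all_eq_true] at h
  have h1 := h q hq
  rw [List.any_eq_true] at h1
  obtain ⟨q', hq', h2⟩ := h1
  rw [Bool.and_eq_true] at h2
  exact ⟨q', hq', Nat.eq_of_beq_eq_true h2.1, h2.2⟩

/-! product of masks -/

theorem M0_bit (m : ℕ) (h : M0.testBit m = true) : 9 ∣ m := by
  have hlt : m < 81 := by
    by_contra hcon
    have : M0 < 2 ^ m := lt_of_lt_of_le (by norm_num [M0] : M0 < 2 ^ 81)
      (Nat.pow_le_pow_right (by norm_num) (by omega))
    rw [Nat.testBit_lt_two_pow this] at h
    exact absurd h (by decide)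
  revert h
  interval_cases m <;> first | (intro _; decide) | (intro h; exact absurd h (by decide +kernel))

theorem mul_spread (Y : ℕ) (hY : Y < 512) : ∀ (i X j : ℕ),
    (∀ m, X.testBit m = true → 9 ∣ m) → j < 9 → (X * Y).testBit (9 * i + j) = true →
    X.testBit (9 * i) = true ∧ Y.testBit j = true := by
  intro i
  induction i with
  | zero =>
    intro X j hX hj h
    have hdec : X = 2 ^ 9 * (X / 512) + X % 512 := by omega
    have hlow : X % 512 = 0 ∨ X % 512 = 1 := by
      have : ∀ m, (X % 512).testBit m = true → m = 0 := by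
        intro m hm
        rw [show (512 : ℕ) = 2 ^ 9 by norm_num, Nat.testBit_mod_two_pow] at hm
        simp only [Bool.and_eq_true, decide_eq_true_eq] at hm
        have := hX m hm.2
        omega
      by_cases h0 : (X % 512).testBit 0 = true
      · right
        apply Nat.eq_of_testBit_eq
        intro m
        by_cases hm : m = 0
        · subst hm; rw [h0]; decide
        · have h1 : (X % 512).testBit m = false := by
            by_contra hc
            exact hm (this m (by simpa using hc))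
          rw [h1, Nat.testBit_one_eq_true_iff_self_eq_zero.not.mpr hm |> Bool.eq_false_iff.mpr]
      · left
        apply Nat.eq_of_testBit_eq
        intro m
        rw [Nat.zero_testBit]
        by_contra hc
        have h2 : (X % 512).testBit m = true := by simpa using hc
        have := this m h2
        subst this
        exact h0 h2
    have hmul : X * Y = 2 ^ 9 * (X / 512 * Y) + (X % 512) * Y := by
      conv_lhs => rw [hdec]
      ring
    have hlt : (X % 512) * Y < 2 ^ 9 := by
      rcases hlow with h0 | h0 <;> rw [h0] <;> simp <;> omega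
    rw [hmul, Nat.testBit_two_pow_mul_add _ hlt, if_pos (by omega)] at h
    rw [Nat.mul_zero, Nat.zero_add] at h
    rcases hlow with h0 | h0
    · rw [h0, Nat.zero_mul, Nat.zero_testBit] at h; exact absurd h (by decide)
    · rw [h0, Nat.one_mul] at h
      refine ⟨?_, h⟩
      rw [Nat.mul_zero]
      have : (X % 2 ^ 9).testBit 0 = true := by
        rw [show (2 : ℕ) ^ 9 = 512 by norm_num, h0]; decide
      rw [Nat.testBit_mod_two_pow] at this
      simp only [Bool.and_eq_true] at this
      exact this.2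
  | succ i ih =>
    intro X j hX hj h
    have hdec : X = 2 ^ 9 * (X / 512) + X % 512 := by omega
    have hlow : X % 512 = 0 ∨ X % 512 = 1 := by
      have : ∀ m, (X % 512).testBit m = true → m = 0 := by
        intro m hm
        rw [show (512 : ℕ) = 2 ^ 9 by norm_num, Nat.testBit_mod_two_pow] at hm
        simp only [Bool.and_eq_true, decide_eq_true_eq] at hm
        have := hX m hm.2
        omega
      by_cases h0 : (X % 512).testBit 0 = true
      · right
        apply Nat.eq_of_testBit_eq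
        intro m
        by_cases hm : m = 0
        · subst hm; rw [h0]; decide
        · have h1 : (X % 512).testBit m = false := by
            by_contra hc
            exact hm (this m (by simpa using hc))
          rw [h1, Nat.testBit_one_eq_true_iff_self_eq_zero.not.mpr hm |> Bool.eq_false_iff.mpr]
      · left
        apply Nat.eq_of_testBit_eq
        intro m
        rw [Nat.zero_testBit]
        by_contra hc
        have h2 : (X % 512).testBit m = true := by simpa using hc
        have := this m h2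
        subst this
        exact h0 h2
    have hmul : X * Y = 2 ^ 9 * (X / 512 * Y) + (X % 512) * Y := by
      conv_lhs => rw [hdec]
      ring
    have hlt : (X % 512) * Y < 2 ^ 9 := by
      rcases hlow with h0 | h0 <;> rw [h0] <;> simp <;> omega
    rw [hmul, Nat.testBit_two_pow_mul_add _ hlt, if_neg (by omega)] at h
    have e1 : 9 * (i + 1) + j - 9 = 9 * i + j := by omega
    rw [e1] at h
    have hX' : ∀ m, (X / 512).testBit m = true → 9 ∣ m := by
      intro m hm
      rw [show (512 : ℕ) = 2 ^ 9 by norm_num, Nat.testBit_div_two_pow] at hm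
      have := hX _ hm
      omega
    have := ih (X / 512) j hX' hj h
    refine ⟨?_, this.2⟩
    have h3 := this.1
    rw [show (512 : ℕ) = 2 ^ 9 by norm_num, Nat.testBit_div_two_pow] at h3
    rw [show 9 * (i + 1) = 9 + 9 * i by ring] 
    rw [show 9 + 9 * i = 9 * i + 9 by ring]
    exact h3

theorem tm_spec (a b k i j : ℕ) (hj : j < 9) (h : (tm a b k).testBit (9 * i + j) = true) :
    a.testBit (9 * i + k) = true ∧ b.testBit (9 * k + j) = true := by
  unfold tm at h
  have hY : Nat.land (Nat.shiftRight b (Nat.mul 9 k)) 511 < 512 :=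
    lt_of_le_of_lt Nat.and_le_right (by norm_num)
  have hX : ∀ m, (Nat.land (Nat.shiftRight a k) M0).testBit m = true → 9 ∣ m := by
    intro m hm
    have hm' : ((a >>> k) &&& M0).testBit m = true := hm
    rw [Nat.testBit_and, Bool.and_eq_true] at hm'
    exact M0_bit m hm'.2
  obtain ⟨h1, h2⟩ := mul_spread _ hY i _ j hX hj h
  have h1' : ((a >>> k) &&& M0).testBit (9 * i) = true := h1
  rw [Nat.testBit_and, Bool.and_eq_true, Nat.testBit_shiftRight] at h1'
  have h2' : ((b >>> (9 * k)) &&& 511).testBit j = true := h2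
  rw [Nat.testBit_and, Bool.and_eq_true, Nat.testBit_shiftRight] at h2'
  refine ⟨?_, h2'.1⟩
  rw [Nat.add_comm]
  exact h1'.1

theorem prd_spec (a b i j : ℕ) (hj : j < 9) (h : (prd a b).testBit (9 * i + j) = true) :
    ∃ k < 9, a.testBit (9 * i + k) = true ∧ b.testBit (9 * k + j) = true := by
  have h' : (tm a b 0 ||| (tm a b 1 ||| (tm a b 2 ||| (tm a b 3 ||| (tm a b 4 ||| (tm a b 5 |||
    (tm a b 6 ||| (tm a b 7 ||| tm a b 8)))))))).testBit (9 * i + j) = true := h
  simp only [Nat.testBit_or, Bool.or_eq_true] at h'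
  rcases h' with h | h | h | h | h | h | h | h | h
  · exact ⟨0, by norm_num, tm_spec _ _ _ _ _ hj h⟩
  · exact ⟨1, by norm_num, tm_spec _ _ _ _ _ hj h⟩
  · exact ⟨2, by norm_num, tm_spec _ _ _ _ _ hj h⟩
  · exact ⟨3, by norm_num, tm_spec _ _ _ _ _ hj h⟩
  · exact ⟨4, by norm_num, tm_spec _ _ _ _ _ hj h⟩
  · exact ⟨5, by norm_num, tm_spec _ _ _ _ _ hj h⟩
  · exact ⟨6, by norm_num, tm_spec _ _ _ _ _ hj h⟩
  · exact ⟨7, by norm_num, tm_spec _ _ _ _ _ hj h⟩
  · exact ⟨8, by norm_num, tm_spec _ _ _ _ _ hj h⟩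

theorem digit_exists : ∀ k < 9, ∃ u v : ZMod 3, k = 3 * u.val + v.val := by
  intro k hk
  interval_cases k
  · exact ⟨0, 0, by decide⟩
  · exact ⟨0, 1, by decide⟩
  · exact ⟨0, 2, by decide⟩
  · exact ⟨1, 0, by decide⟩
  · exact ⟨1, 1, by decide⟩
  · exact ⟨1, 2, by decide⟩
  · exact ⟨2, 0, by decide⟩
  · exact ⟨2, 1, by decide⟩
  · exact ⟨2, 2, by decide⟩

theorem prd_spec' (a b : ℕ) (x y z w : ZMod 3) (h : bt (prd a b) x y z w = true) :
    ∃ u v : ZMod 3, bt a x y u v = true ∧ bt b u v z w = true := by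
  unfold bt cd at h
  have hz := ZMod.val_lt z
  have hw := ZMod.val_lt w
  rw [show 27 * x.val + 9 * y.val + 3 * z.val + w.val
    = 9 * (3 * x.val + y.val) + (3 * z.val + w.val) by ring] at h
  obtain ⟨k, hk, h1, h2⟩ := prd_spec a b _ _ (by omega) h
  obtain ⟨u, v, rfl⟩ := digit_exists k hk
  refine ⟨u, v, ?_, ?_⟩
  · unfold bt cd
    rw [show 27 * x.val + 9 * y.val + 3 * u.val + v.val
      = 9 * (3 * x.val + y.val) + (3 * u.val + v.val) by ring]
    exact h1
  · unfold bt cd
    rw [show 27 * u.val + 9 * v.val + 3 * z.val + w.val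
      = 9 * (3 * u.val + v.val) + (3 * z.val + w.val) by ring]
    exact h2

theorem sub_spec {c t : ℕ} (h : Nat.beq (Nat.land c t) t = true) {n : ℕ}
    (hn : t.testBit n = true) : c.testBit n = true := by
  have h1 : c &&& t = t := Nat.eq_of_beq_eq_true h
  rw [← h1, Nat.testBit_and, Bool.and_eq_true] at hn
  exact hn.1

theorem chk44_all (r s : ZMod 3) : chk44 (OT r) (OT s) (OT (r + s)) = true := by
  fin_cases r <;> fin_cases s
  · exact chk44_00
  · exact chk44_01
  · exact chk44_02
  · exact chk44_10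
  · exact chk44_11
  · exact chk44_12
  · exact chk44_20
  · exact chk44_21
  · exact chk44_22

theorem glue44_spec {r s : ZMod 3} {a b : ℕ × ℕ × ℕ × ℕ} (ha : a ∈ OT r) (hb : b ∈ OT s)
    (hl : ¬ (a.2.2.2 = 1 ∧ b.2.2.2 = 1)) :
    ∃ c ∈ OT (r + s), (c.2.2.2 = 0 ∨ (c.2.2.2 = 1 ∧ (a.2.2.2 = 1 ∨ b.2.2.2 = 1))) ∧
      ∀ x y z w : ZMod 3, bt c.1 x y z w = true →
        ∃ u v : ZMod 3, bt a.1 x y u v = true ∧ bt b.1 z w (-u) (-v) = true := by
  have h := chk44_all r s
  unfold chk44 at h
  rw [List.all_eq_true] at h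
  have h1 := h a ha
  rw [List.all_eq_true] at h1
  have h2 := h1 b hb
  rw [Bool.or_eq_true, Bool.and_eq_true] at h2
  rcases h2 with h2 | h2
  · exact absurd ⟨Nat.eq_of_beq_eq_true h2.1, Nat.eq_of_beq_eq_true h2.2⟩ hl
  · unfold okc at h2
    rw [List.any_eq_true] at h2
    obtain ⟨c, hc, h3⟩ := h2
    rw [Bool.and_eq_true, Bool.or_eq_true, Bool.and_eq_true, Bool.or_eq_true] at h3
    refine ⟨c, hc, ?_, ?_⟩
    · rcases h3.2 with h4 | h4
      · left; exact Nat.eq_of_beq_eq_true h4
      · right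
        refine ⟨Nat.eq_of_beq_eq_true h4.2, ?_⟩
        rcases h4.1 with h5 | h5
        · left; exact Nat.eq_of_beq_eq_true h5
        · right; exact Nat.eq_of_beq_eq_true h5
    · intro x y z w hb1
      have h4 : bt (prd a.1 b.2.1) x y z w = true := sub_spec h3.1 hb1
      obtain ⟨u, v, h5, h6⟩ := prd_spec' _ _ _ _ _ _ h4
      exact ⟨u, v, h5, tn_spec hb h6⟩

theorem chkCl_all (r : ZMod 3) : chkCl (OT r) (OT (-r)) = true := by
  fin_cases r
  · exact chkCl_00
  · exact chkCl_12
  · exact chkCl_21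

theorem exists_bit {n : ℕ} (h : n ≠ 0) (hlt : n < 2 ^ 81) :
    ∃ x y z w : ZMod 3, bt n x y z w = true := by
  obtain ⟨i, hi⟩ := Nat.exists_testBit_of_ne_zero h
  have hi81 : i < 81 := by
    by_contra hcon
    have : n < 2 ^ i := lt_of_lt_of_le hlt (Nat.pow_le_pow_right (by norm_num) (by omega))
    rw [Nat.testBit_lt_two_pow this] at hi
    exact absurd hi (by decide)
  obtain ⟨x, y, hxy⟩ := digit_exists (i / 9) (by omega)
  obtain ⟨z, w, hzw⟩ := digit_exists (i % 9) (by omega)
  refine ⟨x, y, z, w, ?_⟩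
  unfold bt cd
  rw [show 27 * x.val + 9 * y.val + 3 * z.val + w.val
    = 9 * (3 * x.val + y.val) + (3 * z.val + w.val) by ring, ← hxy, ← hzw,
    Nat.div_add_mod]
  exact hi

theorem masks_lt (r : ZMod 3) : (OT r).all (fun q => Nat.ble (q.1 + 1) (2 ^ 81)) = true :=
  OT_cases (fun _ L => L.all (fun q => Nat.ble (q.1 + 1) (2 ^ 81)) = true)
    (by decide +kernel) (by decide +kernel) (by decide +kernel) r

theorem close_spec {r : ZMod 3} {a b : ℕ × ℕ × ℕ × ℕ} (ha : a ∈ OT r) (hb : b ∈ OT (-r))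
    (hl : ¬ (a.2.2.2 = b.2.2.2 ∧ a.2.2.2 ≠ 0)) :
    ∃ x y z w : ZMod 3, bt a.1 x y z w = true ∧ bt b.1 (-x) (-y) (-z) (-w) = true := by
  have h := chkCl_all r
  unfold chkCl at h
  rw [List.all_eq_true] at h
  have h1 := h a ha
  rw [List.all_eq_true] at h1
  have h2 := h1 b hb
  rw [Bool.or_eq_true, Bool.and_eq_true, Bool.not_eq_true', Bool.not_eq_true'] at h2
  rcases h2 with h2 | h2
  · refine absurd ⟨Nat.eq_of_beq_eq_true h2.1, ?_⟩ hl
    intro h0
    rw [h0] at h2
    exact absurd h2.2 (by decide)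
  · have hne : a.1 &&& b.2.2.1 ≠ 0 := by
      intro h0
      have : Nat.land a.1 b.2.2.1 = 0 := h0
      rw [this] at h2
      exact absurd h2 (by decide)
    have hlt : a.1 &&& b.2.2.1 < 2 ^ 81 := by
      have hm := masks_lt r
      rw [List.all_eq_true] at hm
      have := Nat.le_of_ble_eq_true (hm a ha)
      exact lt_of_le_of_lt Nat.and_le_left (by omega)
    obtain ⟨x, y, z, w, h3⟩ := exists_bit hne hlt
    unfold bt at h3
    rw [Nat.testBit_and, Bool.and_eq_true] at h3
    exact ⟨x, y, z, w, h3.1, nn_spec hb h3.2⟩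

end H32P3
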