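import Mathlib
import Pool.Agent.H32P3.Spec

/-!
Meaning of the kernel checks, second part: gluings that involve 3-poles, and permutations.
-/

set_option autoImplicit false
set_option maxRecDepth 100000

namespace H32P3

/-- one of the three values is zero -/
def z3 (x y z : ZMod 3) : Bool := decide (x = 0) || decide (y = 0) || decide (z = 0)

theorem z3_iff (x y z : ZMod 3) : z3 x y z = true ↔ x = 0 ∨ y = 0 ∨ z = 0 := by
  unfold z3
  simp only [Bool.or_eq_true, decide_eq_true_eq, or_assoc]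

def tab34 (r s : ZMod 3) : List (List ℕ) :=
  match r.val, s.val with
  | 0, 0 => tab34_00
  | 0, 1 => tab34_01
  | 0, _ => tab34_02
  | 1, 0 => tab34_10
  | 1, 1 => tab34_11
  | 1, _ => tab34_12
  | _, 0 => tab34_20
  | _, 1 => tab34_21
  | _, _ => tab34_22

theorem tab34_mem : ∀ r s x z1 z2 : ZMod 3, x + z1 + z2 = r + s → z3 x z1 z2 = true →
    ∃ l ∈ tab34 r s, ∀ n ∈ l, ∃ u v : ZMod 3, n = cd u v z1 z2 ∧ x + u + v = r ∧
      z3 x u v = true := by
  decide +kernel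

theorem chk34_all (r s : ZMod 3) : chk34 (tab34 r s) (OT s) = true := by
  fin_cases r <;> fin_cases s
  · exact chk34_00
  · exact chk34_01
  · exact chk34_02
  · exact chk34_10
  · exact chk34_11
  · exact chk34_12
  · exact chk34_20
  · exact chk34_21
  · exact chk34_22

theorem glue34_spec {r s : ZMod 3} {q : ℕ × ℕ × ℕ × ℕ} (hq : q ∈ OT s) (hl : q.2.2.2 ≠ 1)
    {x z1 z2 : ZMod 3} (hsum : x + z1 + z2 = r + s) (hz : x = 0 ∨ z1 = 0 ∨ z2 = 0) :
    ∃ u v : ZMod 3, x + u + v = r ∧ (x = 0 ∨ u = 0 ∨ v = 0) ∧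
      bt q.1 z1 z2 (-u) (-v) = true := by
  have h := chk34_all r s
  unfold chk34 at h
  rw [List.all_eq_true] at h
  have h1 := h q hq
  rw [Bool.or_eq_true] at h1
  rcases h1 with h1 | h1
  · exact absurd (Nat.eq_of_beq_eq_true h1) hl
  · rw [List.all_eq_true] at h1
    obtain ⟨l, hl, h2⟩ := tab34_mem r s x z1 z2 hsum ((z3_iff _ _ _).mpr hz)
    have h3 := h1 l hl
    rw [List.any_eq_true] at h3
    obtain ⟨n, hn, h4⟩ := h3
    obtain ⟨u, v, rfl, h5, h6⟩ := h2 n hn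
    exact ⟨u, v, h5, (z3_iff _ _ _).mp h6, tn_spec hq h4⟩

/-- thin masks -/
def M33 (r s : ZMod 3) : ℕ :=
  match r.val, s.val with
  | 0, 0 => 1485148706611749488801
  | 0, 1 => 2454651299945142813450
  | 0, _ => 774784220982908556372
  | 1, 0 => 760302228721133151142410
  | 1, 1 => 1256149502457759838639172
  | 1, _ => 396678964705046569723905
  | _, 0 => 2900329225246741572
  | _, 1 => 4791848292099590145
  | _, _ => 1513215247388770826

theorem M33_spec : ∀ r s x y z w : ZMod 3, bt (M33 r s) x y z w = true →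
    ∃ u : ZMod 3, x + y + u = r ∧ z3 x y u = true ∧ z + w - u = s ∧ z3 z w u = true := by
  decide +kernel

theorem M33_mem : ∀ r s : ZMod 3, (OT (r + s)).any
    (fun q => Nat.beq q.1 (M33 r s) && Nat.beq q.2.2.2 1) = true := by
  decide +kernel

theorem glue33_spec (r s : ZMod 3) :
    ∃ q ∈ OT (r + s), q.2.2.2 = 1 ∧ ∀ x y z w : ZMod 3, bt q.1 x y z w = true →
      ∃ u : ZMod 3, x + y + u = r ∧ (x = 0 ∨ y = 0 ∨ u = 0) ∧ z + w - u = s ∧
        (z = 0 ∨ w = 0 ∨ u = 0) := by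
  have h := M33_mem r s
  rw [List.any_eq_true] at h
  obtain ⟨q, hq, h1⟩ := h
  rw [Bool.and_eq_true] at h1
  have h2 : q.1 = M33 r s := Nat.eq_of_beq_eq_true h1.1
  refine ⟨q, hq, Nat.eq_of_beq_eq_true h1.2, ?_⟩
  intro x y z w hb
  rw [h2] at hb
  obtain ⟨u, h3, h4, h5, h6⟩ := M33_spec r s x y z w hb
  exact ⟨u, h3, (z3_iff _ _ _).mp h4, h5, (z3_iff _ _ _).mp h6⟩

/-! permutations -/

theorem swapA_spec {r : ZMod 3} {q : ℕ × ℕ × ℕ × ℕ} (hq : q ∈ OT r) :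
    ∃ q' ∈ OT r, labA q.2.2.2 = q'.2.2.2 ∧
      ∀ x y z w : ZMod 3, bt q'.1 y x z w = true → bt q.1 x y z w = true := by
  obtain ⟨q', hq', h1, h2⟩ := chkS_spec (chkSA_all r) hq
  exact ⟨q', hq', h1, fun x y z w h => imp_spec h2 (tabA_mem x y z w) h⟩

theorem swapB_spec {r : ZMod 3} {q : ℕ × ℕ × ℕ × ℕ} (hq : q ∈ OT r) :
    ∃ q' ∈ OT r, labB q.2.2.2 = q'.2.2.2 ∧
      ∀ x y z w : ZMod 3, bt q'.1 x z y w = true → bt q.1 x y z w = true := by
  obtain ⟨q', hq', h1, h2⟩ := chkS_spec (chkSB_all r) hq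
  exact ⟨q', hq', h1, fun x y z w h => imp_spec h2 (tabB_mem x y z w) h⟩

theorem swapC_spec {r : ZMod 3} {q : ℕ × ℕ × ℕ × ℕ} (hq : q ∈ OT r) :
    ∃ q' ∈ OT r, labA q.2.2.2 = q'.2.2.2 ∧
      ∀ x y z w : ZMod 3, bt q'.1 x y w z = true → bt q.1 x y z w = true := by
  obtain ⟨q', hq', h1, h2⟩ := chkS_spec (chkSC_all r) hq
  exact ⟨q', hq', h1, fun x y z w h => imp_spec h2 (tabC_mem x y z w) h⟩

end H32P3
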