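import Mathlib
import Pool.Agent.H32P3.Ext
import Pool.Agent.H32P3.Spec2

/-!
Invariants of 3-poles and 4-poles and how they behave under gluing.
-/

set_option autoImplicit false

namespace H32P3

open Finset

variable {V : Type*} [Fintype V] [DecidableEq V] {G : SimpleGraph V} [DecidableRel G.Adj]

/-- a 3-pole behaves like a single vertex -/
def Inv3 (G : SimpleGraph V) [DecidableRel G.Adj] (A : Finset V) : Prop :=
  ∀ (t : V → ZMod 3) (b : V × V → ZMod 3), (∑ p ∈ bd G A, b p = ∑ v ∈ A, t v) →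
    (∃ p ∈ bd G A, b p = 0) → Ext G t A b

/-- `A` splits into two 3-poles along the pairing `a b | c d` -/
def Split (G : SimpleGraph V) [DecidableRel G.Adj] (A : Finset V) (a b c d : V × V) : Prop :=
  ∃ A' A'' : Finset V, Disjoint A' A'' ∧ A' ∪ A'' = A ∧ (bd G A').card = 3 ∧
    (bd G A'').card = 3 ∧ a.1 ∈ A' ∧ b.1 ∈ A' ∧ c.1 ∈ A'' ∧ d.1 ∈ A''

theorem Split.symm {A : Finset V} {a b c d : V × V} (h : Split G A a b c d) :
    Split G A c d a b := by
  obtain ⟨A', A'', h1, h2, h3, h4, h5, h6, h7, h8⟩ := h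
  exact ⟨A'', A', h1.symm, by rw [Finset.union_comm]; exact h2, h4, h3, h7, h8, h5, h6⟩

theorem Split.swapL {A : Finset V} {a b c d : V × V} (h : Split G A a b c d) :
    Split G A b a c d := by
  obtain ⟨A', A'', h1, h2, h3, h4, h5, h6, h7, h8⟩ := h
  exact ⟨A', A'', h1, h2, h3, h4, h6, h5, h7, h8⟩

theorem Split.swapR {A : Finset V} {a b c d : V × V} (h : Split G A a b c d) :
    Split G A a b d c := by
  obtain ⟨A', A'', h1, h2, h3, h4, h5, h6, h7, h8⟩ := h
  exact ⟨A', A'', h1, h2, h3, h4, h5, h6, h8, h7⟩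

/-- the label `l` is correct for the enumeration `e` -/
def Thin (G : SimpleGraph V) [DecidableRel G.Adj] (A : Finset V) (e : Fin 4 → V × V)
    (l : ℕ) : Prop :=
  l ≤ 3 ∧ (l = 1 → Split G A (e 0) (e 1) (e 2) (e 3)) ∧
    (l = 2 → Split G A (e 0) (e 2) (e 1) (e 3)) ∧ (l = 3 → Split G A (e 0) (e 3) (e 1) (e 2))

/-- the invariant of a 4-pole for one enumeration of its boundary -/
def InvAt (G : SimpleGraph V) [DecidableRel G.Adj] (t : V → ZMod 3) (A : Finset V)
    (e : Fin 4 → V × V) : Prop :=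
  ∃ q ∈ OT (∑ v ∈ A, t v),
    (∀ b : V × V → ZMod 3, bt q.1 (b (e 0)) (b (e 1)) (b (e 2)) (b (e 3)) = true → Ext G t A b) ∧
    Thin G A e q.2.2.2

/-- the invariant of a 4-pole -/
def Inv4 (G : SimpleGraph V) [DecidableRel G.Adj] (A : Finset V) : Prop :=
  ∀ (t : V → ZMod 3) (e : Fin 4 → V × V), Function.Injective e →
    Finset.univ.image e = bd G A → InvAt G t A e

theorem InvAt.swap01 {t : V → ZMod 3} {A : Finset V} {e : Fin 4 → V × V}
    (h : InvAt G t A e) : InvAt G t A (e ∘ Equiv.swap 0 1) := by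
  obtain ⟨q, hq, h1, h0, h2, h3, h4⟩ := h
  obtain ⟨q', hq', hl, h5⟩ := swapA_spec hq
  have e0 : (e ∘ Equiv.swap (0 : Fin 4) 1) 0 = e 1 := by simp
  have e1 : (e ∘ Equiv.swap (0 : Fin 4) 1) 1 = e 0 := by simp
  have e2 : (e ∘ Equiv.swap (0 : Fin 4) 1) 2 = e 2 := by
    simp [Equiv.swap_apply_of_ne_of_ne]
  have e3 : (e ∘ Equiv.swap (0 : Fin 4) 1) 3 = e 3 := by
    simp [Equiv.swap_apply_of_ne_of_ne]
  refine ⟨q', hq', ?_, ?_⟩
  · intro b hb
    rw [e0, e1, e2, e3] at hb
    exact h1 b (h5 _ _ _ _ hb)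
  · unfold Thin
    rw [e0, e1, e2, e3, ← hl]
    generalize q.2.2.2 = l at h0 h2 h3 h4
    interval_cases l
    · exact ⟨by decide, fun h => absurd h (by decide), fun h => absurd h (by decide), fun h => absurd h (by decide)⟩
    · exact ⟨by decide, fun _ => (h2 rfl).swapL, fun h => absurd h (by decide), fun h => absurd h (by decide)⟩
    · exact ⟨by decide, fun h => absurd h (by decide), fun h => absurd h (by decide), fun _ => (h3 rfl).symm⟩
    · exact ⟨by decide, fun h => absurd h (by decide), fun _ => (h4 rfl).symm, fun h => absurd h (by decide)⟩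

theorem InvAt.swap12 {t : V → ZMod 3} {A : Finset V} {e : Fin 4 → V × V}
    (h : InvAt G t A e) : InvAt G t A (e ∘ Equiv.swap 1 2) := by
  obtain ⟨q, hq, h1, h0, h2, h3, h4⟩ := h
  obtain ⟨q', hq', hl, h5⟩ := swapB_spec hq
  have e0 : (e ∘ Equiv.swap (1 : Fin 4) 2) 0 = e 0 := by
    simp [Equiv.swap_apply_of_ne_of_ne]
  have e1 : (e ∘ Equiv.swap (1 : Fin 4) 2) 1 = e 2 := by simp
  have e2 : (e ∘ Equiv.swap (1 : Fin 4) 2) 2 = e 1 := by simp
  have e3 : (e ∘ Equiv.swap (1 : Fin 4) 2) 3 = e 3 := by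
    simp [Equiv.swap_apply_of_ne_of_ne]
  refine ⟨q', hq', ?_, ?_⟩
  · intro b hb
    rw [e0, e1, e2, e3] at hb
    exact h1 b (h5 _ _ _ _ hb)
  · unfold Thin
    rw [e0, e1, e2, e3, ← hl]
    generalize q.2.2.2 = l at h0 h2 h3 h4
    interval_cases l
    · exact ⟨by decide, fun h => absurd h (by decide), fun h => absurd h (by decide), fun h => absurd h (by decide)⟩
    · exact ⟨by decide, fun h => absurd h (by decide), fun _ => h2 rfl, fun h => absurd h (by decide)⟩
    · exact ⟨by decide, fun _ => h3 rfl, fun h => absurd h (by decide), fun h => absurd h (by decide)⟩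
    · exact ⟨by decide, fun h => absurd h (by decide), fun h => absurd h (by decide), fun _ => (h4 rfl).swapR⟩

theorem InvAt.swap23 {t : V → ZMod 3} {A : Finset V} {e : Fin 4 → V × V}
    (h : InvAt G t A e) : InvAt G t A (e ∘ Equiv.swap 2 3) := by
  obtain ⟨q, hq, h1, h0, h2, h3, h4⟩ := h
  obtain ⟨q', hq', hl, h5⟩ := swapC_spec hq
  have e0 : (e ∘ Equiv.swap (2 : Fin 4) 3) 0 = e 0 := by
    simp [Equiv.swap_apply_of_ne_of_ne]
  have e1 : (e ∘ Equiv.swap (2 : Fin 4) 3) 1 = e 1 := by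
    simp [Equiv.swap_apply_of_ne_of_ne]
  have e2 : (e ∘ Equiv.swap (2 : Fin 4) 3) 2 = e 3 := by simp
  have e3 : (e ∘ Equiv.swap (2 : Fin 4) 3) 3 = e 2 := by simp
  refine ⟨q', hq', ?_, ?_⟩
  · intro b hb
    rw [e0, e1, e2, e3] at hb
    exact h1 b (h5 _ _ _ _ hb)
  · unfold Thin
    rw [e0, e1, e2, e3, ← hl]
    generalize q.2.2.2 = l at h0 h2 h3 h4
    interval_cases l
    · exact ⟨by decide, fun h => absurd h (by decide), fun h => absurd h (by decide), fun h => absurd h (by decide)⟩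
    · exact ⟨by decide, fun _ => (h2 rfl).swapR, fun h => absurd h (by decide), fun h => absurd h (by decide)⟩
    · exact ⟨by decide, fun h => absurd h (by decide), fun h => absurd h (by decide), fun _ => h3 rfl⟩
    · exact ⟨by decide, fun h => absurd h (by decide), fun _ => h4 rfl, fun h => absurd h (by decide)⟩

theorem InvAt.swap {t : V → ZMod 3} {A : Finset V} {e : Fin 4 → V × V}
    (h : InvAt G t A e) (x y : Fin 4) (hxy : x ≠ y) : InvAt G t A (e ∘ Equiv.swap x y) := by
  have h02 : Equiv.swap (0 : Fin 4) 2 = (Equiv.swap 0 1 * Equiv.swap 1 2) * Equiv.swap 0 1 := by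
    decide
  have h13 : Equiv.swap (1 : Fin 4) 3 = (Equiv.swap 1 2 * Equiv.swap 2 3) * Equiv.swap 1 2 := by
    decide
  have h03 : Equiv.swap (0 : Fin 4) 3 = (((Equiv.swap 0 1 * Equiv.swap 1 2) * Equiv.swap 2 3)
      * Equiv.swap 1 2) * Equiv.swap 0 1 := by
    decide
  have A01 := fun (e' : Fin 4 → V × V) (h' : InvAt G t A e') => h'.swap01
  have A12 := fun (e' : Fin 4 → V × V) (h' : InvAt G t A e') => h'.swap12
  have A23 := fun (e' : Fin 4 → V × V) (h' : InvAt G t A e') => h'.swap23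
  have A02 : InvAt G t A (e ∘ Equiv.swap 0 2) := by
    rw [h02, Equiv.Perm.coe_mul, Equiv.Perm.coe_mul, ← Function.comp_assoc,
      ← Function.comp_assoc]
    exact A01 _ (A12 _ (A01 _ h))
  have A13 : InvAt G t A (e ∘ Equiv.swap 1 3) := by
    rw [h13, Equiv.Perm.coe_mul, Equiv.Perm.coe_mul, ← Function.comp_assoc,
      ← Function.comp_assoc]
    exact A12 _ (A23 _ (A12 _ h))
  have A03 : InvAt G t A (e ∘ Equiv.swap 0 3) := by
    rw [h03, Equiv.Perm.coe_mul, Equiv.Perm.coe_mul, Equiv.Perm.coe_mul, Equiv.Perm.coe_mul,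
      ← Function.comp_assoc, ← Function.comp_assoc, ← Function.comp_assoc,
      ← Function.comp_assoc]
    exact A01 _ (A12 _ (A23 _ (A12 _ (A01 _ h))))
  have h4 : ∀ z : Fin 4, z = 0 ∨ z = 1 ∨ z = 2 ∨ z = 3 := by decide
  have hx := h4 x
  have hy := h4 y
  rcases hx with rfl | rfl | rfl | rfl <;> rcases hy with rfl | rfl | rfl | rfl
  · exact absurd rfl hxy
  · exact A01 _ h
  · exact A02
  · exact A03
  · rw [Equiv.swap_comm]; exact A01 _ h
  · exact absurd rfl hxy
  · exact A12 _ h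
  · exact A13
  · rw [Equiv.swap_comm]; exact A02
  · rw [Equiv.swap_comm]; exact A12 _ h
  · exact absurd rfl hxy
  · exact A23 _ h
  · rw [Equiv.swap_comm]; exact A03
  · rw [Equiv.swap_comm]; exact A13
  · rw [Equiv.swap_comm]; exact A23 _ h
  · exact absurd rfl hxy

theorem InvAt.perm {t : V → ZMod 3} {A : Finset V} {e : Fin 4 → V × V}
    (h : InvAt G t A e) (σ : Equiv.Perm (Fin 4)) : InvAt G t A (e ∘ σ) := by
  induction σ using Equiv.Perm.swap_induction_on generalizing e with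
  | one => exact h
  | swap_mul f x y hxy ih => 
    have h1 := h.swap x y hxy
    exact ih h1

omit [Fintype V] in
theorem exists_perm {e e' : Fin 4 → V × V}
    (he' : Function.Injective e') (him : Finset.univ.image e = Finset.univ.image e') :
    ∃ σ : Equiv.Perm (Fin 4), e' = e ∘ σ := by
  have h1 : ∀ i, ∃ j, e j = e' i := by
    intro i
    have : e' i ∈ Finset.univ.image e := by
      rw [him]; exact Finset.mem_image_of_mem _ (Finset.mem_univ i)
    obtain ⟨j, _, hj⟩ := Finset.mem_image.mp this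
    exact ⟨j, hj⟩
  choose f hf using h1
  have hinj : Function.Injective f := by
    intro i j hij
    apply he'
    rw [← hf i, ← hf j, hij]
  refine ⟨Equiv.ofBijective f (Finite.injective_iff_bijective.mp hinj), ?_⟩
  funext i
  exact (hf i).symm

theorem Inv4_of_one {A : Finset V} {e0 : Fin 4 → V × V}
    (him : Finset.univ.image e0 = bd G A) (h : ∀ t, InvAt G t A e0) : Inv4 G A := by
  intro t e he hime
  obtain ⟨σ, rfl⟩ := exists_perm he (him.trans hime.symm)
  exact (h t).perm σ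

end H32P3
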