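import Mathlib
import Pool.Agent.H32P3.Poles

/-!
Gluing of 3-poles and 4-poles in a 3-edge-connected graph.
-/

set_option autoImplicit false

namespace H32P3

open Finset

variable {V : Type*} [Fintype V] [DecidableEq V] {G : SimpleGraph V} [DecidableRel G.Adj]

theorem cr_swap (A B : Finset V) : cr G B A = (cr G A B).image Prod.swap := by
  ext p
  rw [Finset.mem_image, mem_cr]
  constructor
  · rintro ⟨h1, h2, h3⟩
    exact ⟨p.swap, mem_cr.mpr ⟨h2, h1, h3.symm⟩, Prod.swap_swap p⟩
  · rintro ⟨q, hq, rfl⟩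
    have := mem_cr.mp hq
    exact ⟨this.2.1, this.1, this.2.2.symm⟩

/-- outer darts of `A` in the union -/
def oL (G : SimpleGraph V) [DecidableRel G.Adj] (A B : Finset V) : Finset (V × V) :=
  (bd G (A ∪ B)).filter (fun p => p.1 ∈ A)

/-- outer darts of `B` in the union -/
def oR (G : SimpleGraph V) [DecidableRel G.Adj] (A B : Finset V) : Finset (V × V) :=
  (bd G (A ∪ B)).filter (fun p => p.1 ∈ B)

theorem mem_oL {A B : Finset V} {p : V × V} :
    p ∈ oL G A B ↔ p.1 ∈ A ∧ p.2 ∉ A ∪ B ∧ G.Adj p.1 p.2 := by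
  unfold oL
  rw [Finset.mem_filter, mem_bd]
  constructor
  · rintro ⟨⟨_, h2, h3⟩, h4⟩; exact ⟨h4, h2, h3⟩
  · rintro ⟨h1, h2, h3⟩; exact ⟨⟨Finset.mem_union_left _ h1, h2, h3⟩, h1⟩

theorem mem_oR {A B : Finset V} {p : V × V} :
    p ∈ oR G A B ↔ p.1 ∈ B ∧ p.2 ∉ A ∪ B ∧ G.Adj p.1 p.2 := by
  unfold oR
  rw [Finset.mem_filter, mem_bd]
  constructor
  · rintro ⟨⟨_, h2, h3⟩, h4⟩; exact ⟨h4, h2, h3⟩
  · rintro ⟨h1, h2, h3⟩; exact ⟨⟨Finset.mem_union_right _ h1, h2, h3⟩, h1⟩

theorem bdL {A B : Finset V} (hd : Disjoint A B) : bd G A = oL G A B ∪ cr G A B := bd_left hd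

theorem bdR {A B : Finset V} (hd : Disjoint A B) : bd G B = oR G A B ∪ cr G B A := bd_right hd

theorem bdU {A B : Finset V} : bd G (A ∪ B) = oL G A B ∪ oR G A B := bd_union

theorem oL_ne_cr {A B : Finset V} {p q : V × V} (hp : p ∈ oL G A B)
    (hq : q ∈ cr G A B) : p ≠ q := by
  rintro rfl
  exact (mem_oL.mp hp).2.1 (Finset.mem_union_right _ (mem_cr.mp hq).2.1)

theorem oR_ne_cr {A B : Finset V} {p q : V × V} (hp : p ∈ oR G A B)
    (hq : q ∈ cr G B A) : p ≠ q := by
  rintro rfl
  exact (mem_oR.mp hp).2.1 (Finset.mem_union_left _ (mem_cr.mp hq).2.1)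

theorem oL_ne_oR {A B : Finset V} (hd : Disjoint A B) {p q : V × V} (hp : p ∈ oL G A B)
    (hq : q ∈ oR G A B) : p ≠ q := by
  rintro rfl
  exact (Finset.disjoint_left.mp hd) (mem_oL.mp hp).1 (mem_oR.mp hq).1

/-- the value `x` on the single edge `s` is passed from `A` to `B` -/
theorem glue1 {t : V → ZMod 3} {A B : Finset V} (hd : Disjoint A B) {s : V × V}
    (hcr : cr G A B = {s}) {b : V × V → ZMod 3} (x : ZMod 3)
    (hA : Ext G t A (fun p => if p = s then x else b p))
    (hB : Ext G t B (fun p => if p = s.swap then -x else b p)) :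
    Ext G t (A ∪ B) b := by
  refine Ext.glue hd hA hB ?_ ?_ ?_
  · intro p hp hpA
    have h1 : p ≠ s := by
      apply oL_ne_cr (G := G) (A := A) (B := B)
      · exact Finset.mem_filter.mpr ⟨hp, hpA⟩
      · rw [hcr]; exact Finset.mem_singleton_self _
    simp [h1]
  · intro p hp hpB
    have h1 : p ≠ s.swap := by
      apply oR_ne_cr (G := G) (A := A) (B := B)
      · exact Finset.mem_filter.mpr ⟨hp, hpB⟩
      · rw [cr_swap, hcr]; simp
    simp [h1]
  · intro p hp
    rw [hcr, Finset.mem_singleton] at hp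
    subst hp
    simp

theorem glue2 {t : V → ZMod 3} {A B : Finset V} (hd : Disjoint A B) {s1 s2 : V × V}
    (hs : s1 ≠ s2) (hcr : cr G A B = {s1, s2}) {b : V × V → ZMod 3} (x y : ZMod 3)
    (hA : Ext G t A (fun p => if p = s1 then x else if p = s2 then y else b p))
    (hB : Ext G t B (fun p => if p = s1.swap then -x else if p = s2.swap then -y else b p)) :
    Ext G t (A ∪ B) b := by
  have hs' : s2.swap ≠ s1.swap := fun h => hs (Prod.swap_injective h).symm
  refine Ext.glue hd hA hB ?_ ?_ ?_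
  · intro p hp hpA
    have hp' : p ∈ oL G A B := Finset.mem_filter.mpr ⟨hp, hpA⟩
    have h1 : p ≠ s1 := oL_ne_cr hp' (by rw [hcr]; simp)
    have h2 : p ≠ s2 := oL_ne_cr hp' (by rw [hcr]; simp)
    simp [h1, h2]
  · intro p hp hpB
    have hp' : p ∈ oR G A B := Finset.mem_filter.mpr ⟨hp, hpB⟩
    have h1 : p ≠ s1.swap := oR_ne_cr hp' (by rw [cr_swap, hcr]; simp)
    have h2 : p ≠ s2.swap := oR_ne_cr hp' (by rw [cr_swap, hcr]; simp)
    simp [h1, h2]
  · intro p hp
    rw [hcr, Finset.mem_insert, Finset.mem_singleton] at hp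
    rcases hp with rfl | rfl
    · simp
    · simp [hs', hs.symm]

omit [Fintype V] in
theorem image_vec4 (a b c d : V × V) :
    Finset.univ.image (![a, b, c, d] : Fin 4 → V × V) = {a, b} ∪ {c, d} := by
  ext p
  simp only [Finset.mem_image, Finset.mem_univ, true_and, Finset.mem_union, Finset.mem_insert,
    Finset.mem_singleton]
  constructor
  · rintro ⟨i, rfl⟩
    fin_cases i
    · exact Or.inl (Or.inl rfl)
    · exact Or.inl (Or.inr rfl)
    · exact Or.inr (Or.inl rfl)
    · exact Or.inr (Or.inr rfl)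
  · rintro ((rfl | rfl) | (rfl | rfl))
    · exact ⟨0, rfl⟩
    · exact ⟨1, rfl⟩
    · exact ⟨2, rfl⟩
    · exact ⟨3, rfl⟩

omit [Fintype V] [DecidableEq V] in
theorem inj_vec4 {a b c d : V × V} (hab : a ≠ b) (hac : a ≠ c) (had : a ≠ d) (hbc : b ≠ c)
    (hbd : b ≠ d) (hcd : c ≠ d) : Function.Injective (![a, b, c, d] : Fin 4 → V × V) := by
  intro i j hij
  have h4 : ∀ z : Fin 4, z = 0 ∨ z = 1 ∨ z = 2 ∨ z = 3 := by decide
  rcases h4 i with rfl | rfl | rfl | rfl <;> rcases h4 j with rfl | rfl | rfl | rfl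
  · rfl
  · exact absurd hij hab
  · exact absurd hij hac
  · exact absurd hij had
  · exact absurd hij.symm hab
  · rfl
  · exact absurd hij hbc
  · exact absurd hij hbd
  · exact absurd hij.symm hac
  · exact absurd hij.symm hbc
  · rfl
  · exact absurd hij hcd
  · exact absurd hij.symm had
  · exact absurd hij.symm hbd
  · exact absurd hij.symm hcd
  · rfl

theorem join33 {A B : Finset V} (hd : Disjoint A B) (hA : Inv3 G A) (hB : Inv3 G B)
    (cA : (bd G A).card = 3) (cB : (bd G B).card = 3) (cC : (bd G (A ∪ B)).card = 4) :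
    Inv4 G (A ∪ B) := by
  have h0 := bd_union_card (G := G) hd
  have hcr : (cr G A B).card = 1 := by omega
  have hcr' := cr_swap_card (G := G) A B
  obtain ⟨s, hs⟩ := Finset.card_eq_one.mp hcr
  have hoA : (oL G A B).card = 2 := by
    have := bd_left_card (G := G) hd
    unfold oL; omega
  have hoB : (oR G A B).card = 2 := by
    have := bd_right_card (G := G) hd
    unfold oR; omega
  obtain ⟨a1, a2, ha, hoA⟩ := Finset.card_eq_two.mp hoA
  obtain ⟨b1, b2, hb, hoB⟩ := Finset.card_eq_two.mp hoB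
  have ma1 : a1 ∈ oL G A B := by rw [hoA]; simp
  have ma2 : a2 ∈ oL G A B := by rw [hoA]; simp
  have mb1 : b1 ∈ oR G A B := by rw [hoB]; simp
  have mb2 : b2 ∈ oR G A B := by rw [hoB]; simp
  have ms : s ∈ cr G A B := by rw [hs]; simp
  have ms' : s.swap ∈ cr G B A := by rw [cr_swap, hs]; simp
  have hcr2 : cr G B A = {s.swap} := by rw [cr_swap, hs]; simp
  apply Inv4_of_one (e0 := ![a1, a2, b1, b2])
  · rw [image_vec4, bdU, hoA, hoB]
  · intro t
    have hsum : ∑ v ∈ A ∪ B, t v = ∑ v ∈ A, t v + ∑ v ∈ B, t v := Finset.sum_union hd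
    obtain ⟨q, hq, hl, hspec⟩ := glue33_spec (∑ v ∈ A, t v) (∑ v ∈ B, t v)
    rw [← hsum] at hq
    refine ⟨q, hq, ?_, ?_⟩
    · intro b hbt
      obtain ⟨u, h1, h2, h3, h4⟩ := hspec _ _ _ _ hbt
      simp only [Matrix.cons_val_zero, Matrix.cons_val_one, Matrix.cons_val] at h1 h2 h3 h4
      have na1 : a1 ≠ s := oL_ne_cr ma1 ms
      have na2 : a2 ≠ s := oL_ne_cr ma2 ms
      have nb1 : b1 ≠ s.swap := oR_ne_cr mb1 ms'
      have nb2 : b2 ≠ s.swap := oR_ne_cr mb2 ms'
      refine glue1 hd hs u (hA _ _ ?_ ?_) (hB _ _ ?_ ?_)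
      · rw [bdL hd, hoA, hs, Finset.sum_union (by
          rw [← hoA, ← hs, Finset.disjoint_left]
          intro p hp hq'; exact oL_ne_cr hp hq' rfl), Finset.sum_pair ha, Finset.sum_singleton]
        simp only [na1, na2, if_true, if_false]
        exact h1
      · rcases h2 with h2 | h2 | h2
        · exact ⟨a1, by rw [bdL hd]; exact Finset.mem_union_left _ ma1, by simp [na1, h2]⟩
        · exact ⟨a2, by rw [bdL hd]; exact Finset.mem_union_left _ ma2, by simp [na2, h2]⟩
        · exact ⟨s, by rw [bdL hd]; exact Finset.mem_union_right _ ms, by simp [h2]⟩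
      · rw [bdR hd, hoB, hcr2, Finset.sum_union (by
          rw [← hoB, ← hcr2, Finset.disjoint_left]
          intro p hp hq'; exact oR_ne_cr hp hq' rfl), Finset.sum_pair hb, Finset.sum_singleton]
        simp only [nb1, nb2, if_true, if_false]
        rw [← h3]; ring
      · rcases h4 with h4 | h4 | h4
        · exact ⟨b1, by rw [bdR hd]; exact Finset.mem_union_left _ mb1, by simp [nb1, h4]⟩
        · exact ⟨b2, by rw [bdR hd]; exact Finset.mem_union_left _ mb2, by simp [nb2, h4]⟩
        · exact ⟨s.swap, by rw [bdR hd]; exact Finset.mem_union_right _ ms', by simp [h4]⟩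
    · unfold Thin
      rw [hl]
      refine ⟨by norm_num, fun _ => ?_, fun h => absurd h (by decide),
        fun h => absurd h (by decide)⟩
      exact ⟨A, B, hd, rfl, cA, cB, (mem_oL.mp ma1).1, (mem_oL.mp ma2).1, (mem_oR.mp mb1).1,
        (mem_oR.mp mb2).1⟩

theorem thin_contra (hE : E3 G) {A B : Finset V} (hd : Disjoint A B)
    (cA : (bd G A).card = 3) (cB : (bd G B).card = 3) (hne : A.Nonempty)
    (hu : A ∪ B ≠ Finset.univ) {s1 s2 : V × V} (hs : s1 ≠ s2)
    (h1 : s1 ∈ cr G A B) (h2 : s2 ∈ cr G A B) : False := by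
  have h0 := bd_union_card (G := G) hd
  have h3 : 2 ≤ (cr G A B).card := by
    have : ({s1, s2} : Finset (V × V)) ⊆ cr G A B := by
      intro p hp
      rw [Finset.mem_insert, Finset.mem_singleton] at hp
      rcases hp with rfl | rfl
      · exact h1
      · exact h2
    have h4 := Finset.card_le_card this
    rwa [Finset.card_pair hs] at h4
  have h5 := hE (A ∪ B) (hne.mono Finset.subset_union_left) hu
  omega

theorem join34 (hE : E3 G) {A B : Finset V} (hd : Disjoint A B) (hA : Inv3 G A) (hB : Inv4 G B)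
    (cA : (bd G A).card = 3) (cB : (bd G B).card = 4) (cC : (bd G (A ∪ B)).card = 3)
    (hne : A.Nonempty) (hu : A ∪ B ≠ Finset.univ) :
    Inv3 G (A ∪ B) := by
  have h0 := bd_union_card (G := G) hd
  have hcr : (cr G A B).card = 2 := by omega
  have hcr' := cr_swap_card (G := G) A B
  obtain ⟨s1, s2, hs12, hs⟩ := Finset.card_eq_two.mp hcr
  have hoA : (oL G A B).card = 1 := by
    have := bd_left_card (G := G) hd
    unfold oL; omega
  have hoB : (oR G A B).card = 2 := by
    have := bd_right_card (G := G) hd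
    unfold oR; omega
  obtain ⟨a, hoA⟩ := Finset.card_eq_one.mp hoA
  obtain ⟨b1, b2, hb, hoB⟩ := Finset.card_eq_two.mp hoB
  have ma : a ∈ oL G A B := by rw [hoA]; simp
  have mb1 : b1 ∈ oR G A B := by rw [hoB]; simp
  have mb2 : b2 ∈ oR G A B := by rw [hoB]; simp
  have ms1 : s1 ∈ cr G A B := by rw [hs]; simp
  have ms2 : s2 ∈ cr G A B := by rw [hs]; simp
  have hcr2 : cr G B A = {s1.swap, s2.swap} := by
    rw [cr_swap, hs, Finset.image_insert, Finset.image_singleton]
  have ms1' : s1.swap ∈ cr G B A := by rw [hcr2]; simp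
  have ms2' : s2.swap ∈ cr G B A := by rw [hcr2]; simp
  have hs' : s1.swap ≠ s2.swap := fun h => hs12 (Prod.swap_injective h)
  intro t b hsumb hzero
  have hsum : ∑ v ∈ A ∪ B, t v = ∑ v ∈ A, t v + ∑ v ∈ B, t v := Finset.sum_union hd
  have na1 : a ≠ s1 := oL_ne_cr ma ms1
  have na2 : a ≠ s2 := oL_ne_cr ma ms2
  have nb11 : b1 ≠ s1.swap := oR_ne_cr mb1 ms1'
  have nb12 : b1 ≠ s2.swap := oR_ne_cr mb1 ms2'
  have nb21 : b2 ≠ s1.swap := oR_ne_cr mb2 ms1'
  have nb22 : b2 ≠ s2.swap := oR_ne_cr mb2 ms2'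
  obtain ⟨q, hq, hext, hthin⟩ := hB t ![b1, b2, s1.swap, s2.swap]
    (inj_vec4 hb nb11 nb12 nb21 nb22 hs') (by rw [image_vec4, bdR hd, hoB, hcr2])
  have hl : q.2.2.2 ≠ 1 := by
    intro hl
    obtain ⟨B', B'', k1, k2, k3, k4, k5, k6, k7, k8⟩ := hthin.2.1 hl
    have k7' : s1.2 ∈ B'' := k7
    have k8' : s2.2 ∈ B'' := k8
    have hsub : B'' ⊆ B := by rw [← k2]; exact Finset.subset_union_right
    have hdd : Disjoint A B'' := hd.mono_right hsub
    refine thin_contra hE hdd cA k4 hne ?_ hs12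
      (mem_cr.mpr ⟨(mem_cr.mp ms1).1, k7', (mem_cr.mp ms1).2.2⟩)
      (mem_cr.mpr ⟨(mem_cr.mp ms2).1, k8', (mem_cr.mp ms2).2.2⟩)
    intro hcon
    apply hu
    rw [← Finset.univ_subset_iff, ← hcon]
    exact Finset.union_subset_union_right hsub
  have hsb : b a + b b1 + b b2 = ∑ v ∈ A, t v + ∑ v ∈ B, t v := by
    rw [← hsum, ← hsumb, bdU, hoA, hoB, Finset.sum_union (by
      rw [← hoA, ← hoB, Finset.disjoint_left]
      intro p hp hq'; exact oL_ne_oR hd hp hq' rfl), Finset.sum_pair hb, Finset.sum_singleton]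
    ring
  have hz : b a = 0 ∨ b b1 = 0 ∨ b b2 = 0 := by
    obtain ⟨p, hp, hp0⟩ := hzero
    rw [bdU, hoA, hoB, Finset.mem_union, Finset.mem_singleton, Finset.mem_insert,
      Finset.mem_singleton] at hp
    rcases hp with rfl | rfl | rfl
    · exact Or.inl hp0
    · exact Or.inr (Or.inl hp0)
    · exact Or.inr (Or.inr hp0)
  obtain ⟨u, v, h1, h2, h3⟩ := glue34_spec (r := ∑ v ∈ A, t v) hq hl hsb hz
  refine glue2 hd hs12 hs u v (hA _ _ ?_ ?_) (hext _ ?_)
  · rw [bdL hd, hoA, hs, Finset.sum_union (by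
      rw [← hoA, ← hs, Finset.disjoint_left]
      intro p hp hq'; exact oL_ne_cr hp hq' rfl), Finset.sum_pair hs12, Finset.sum_singleton]
    simp only [na1, na2, if_true, if_false, hs12.symm]
    rw [← h1]; ring
  · rcases h2 with h2 | h2 | h2
    · exact ⟨a, by rw [bdL hd]; exact Finset.mem_union_left _ ma, by simp [na1, na2, h2]⟩
    · exact ⟨s1, by rw [bdL hd]; exact Finset.mem_union_right _ ms1, by simp [h2]⟩
    · exact ⟨s2, by rw [bdL hd]; exact Finset.mem_union_right _ ms2, by simp [h2, hs12.symm]⟩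
  · simp only [Matrix.cons_val_zero, Matrix.cons_val_one, Matrix.cons_val, nb11, nb12, nb21,
      nb22, if_true, if_false, hs'.symm]
    exact h3

theorem join44 (hE : E3 G) {A B : Finset V} (hd : Disjoint A B) (hA : Inv4 G A) (hB : Inv4 G B)
    (cA : (bd G A).card = 4) (cB : (bd G B).card = 4) (cC : (bd G (A ∪ B)).card = 4) :
    Inv4 G (A ∪ B) := by
  have h0 := bd_union_card (G := G) hd
  have hcr : (cr G A B).card = 2 := by omega
  have hcr' := cr_swap_card (G := G) A B
  obtain ⟨s1, s2, hs12, hs⟩ := Finset.card_eq_two.mp hcr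
  have hoA : (oL G A B).card = 2 := by
    have := bd_left_card (G := G) hd
    unfold oL; omega
  have hoB : (oR G A B).card = 2 := by
    have := bd_right_card (G := G) hd
    unfold oR; omega
  obtain ⟨a1, a2, ha, hoA⟩ := Finset.card_eq_two.mp hoA
  obtain ⟨b1, b2, hb, hoB⟩ := Finset.card_eq_two.mp hoB
  have ma1 : a1 ∈ oL G A B := by rw [hoA]; simp
  have ma2 : a2 ∈ oL G A B := by rw [hoA]; simp
  have mb1 : b1 ∈ oR G A B := by rw [hoB]; simp
  have mb2 : b2 ∈ oR G A B := by rw [hoB]; simp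
  have ms1 : s1 ∈ cr G A B := by rw [hs]; simp
  have ms2 : s2 ∈ cr G A B := by rw [hs]; simp
  have hcr2 : cr G B A = {s1.swap, s2.swap} := by
    rw [cr_swap, hs, Finset.image_insert, Finset.image_singleton]
  have ms1' : s1.swap ∈ cr G B A := by rw [hcr2]; simp
  have ms2' : s2.swap ∈ cr G B A := by rw [hcr2]; simp
  have hs' : s1.swap ≠ s2.swap := fun h => hs12 (Prod.swap_injective h)
  have na11 : a1 ≠ s1 := oL_ne_cr ma1 ms1
  have na12 : a1 ≠ s2 := oL_ne_cr ma1 ms2
  have na21 : a2 ≠ s1 := oL_ne_cr ma2 ms1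
  have na22 : a2 ≠ s2 := oL_ne_cr ma2 ms2
  have nb11 : b1 ≠ s1.swap := oR_ne_cr mb1 ms1'
  have nb12 : b1 ≠ s2.swap := oR_ne_cr mb1 ms2'
  have nb21 : b2 ≠ s1.swap := oR_ne_cr mb2 ms1'
  have nb22 : b2 ≠ s2.swap := oR_ne_cr mb2 ms2'
  apply Inv4_of_one (e0 := ![a1, a2, b1, b2])
  · rw [image_vec4, bdU, hoA, hoB]
  · intro t
    have hsum : ∑ v ∈ A ∪ B, t v = ∑ v ∈ A, t v + ∑ v ∈ B, t v := Finset.sum_union hd
    obtain ⟨qA, hqA, hextA, hthinA⟩ := hA t ![a1, a2, s1, s2]
      (inj_vec4 ha na11 na12 na21 na22 hs12) (by rw [image_vec4, bdL hd, hoA, hs])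
    obtain ⟨qB, hqB, hextB, hthinB⟩ := hB t ![b1, b2, s1.swap, s2.swap]
      (inj_vec4 hb nb11 nb12 nb21 nb22 hs') (by rw [image_vec4, bdR hd, hoB, hcr2])
    have hl : ¬ (qA.2.2.2 = 1 ∧ qB.2.2.2 = 1) := by
      rintro ⟨hl1, hl2⟩
      obtain ⟨A', A'', j1, j2, j3, j4, j5, j6, j7, j8⟩ := hthinA.2.1 hl1
      obtain ⟨B', B'', k1, k2, k3, k4, k5, k6, k7, k8⟩ := hthinB.2.1 hl2
      have j5' : a1.1 ∈ A' := j5
      have j7' : s1.1 ∈ A'' := j7
      have j8' : s2.1 ∈ A'' := j8
      have k7' : s1.2 ∈ B'' := k7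
      have k8' : s2.2 ∈ B'' := k8
      have hsubA : A'' ⊆ A := by rw [← j2]; exact Finset.subset_union_right
      have hsubB : B'' ⊆ B := by rw [← k2]; exact Finset.subset_union_right
      have hdd : Disjoint A'' B'' := (hd.mono_right hsubB).mono_left hsubA
      refine thin_contra hE hdd j4 k4 ⟨_, j7'⟩ ?_ hs12
        (mem_cr.mpr ⟨j7', k7', (mem_cr.mp ms1).2.2⟩)
        (mem_cr.mpr ⟨j8', k8', (mem_cr.mp ms2).2.2⟩)
      intro hcon
      have h5 : a1.1 ∈ A'' ∪ B'' := by rw [hcon]; exact Finset.mem_univ _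
      rcases Finset.mem_union.mp h5 with h5 | h5
      · exact (Finset.disjoint_left.mp j1) j5' h5
      · exact (Finset.disjoint_left.mp hd) (mem_oL.mp ma1).1 (hsubB h5)
    obtain ⟨q, hq, hlab, hspec⟩ := glue44_spec hqA hqB hl
    rw [← hsum] at hq
    refine ⟨q, hq, ?_, ?_⟩
    · intro b hbt
      obtain ⟨u, v, h1, h2⟩ := hspec _ _ _ _ hbt
      simp only [Matrix.cons_val_zero, Matrix.cons_val_one, Matrix.cons_val] at h1 h2
      refine glue2 hd hs12 hs u v (hextA _ ?_) (hextB _ ?_)
      · simp only [Matrix.cons_val_zero, Matrix.cons_val_one, Matrix.cons_val, na11, na12, na21,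
          na22, if_true, if_false, hs12.symm]
        exact h1
      · simp only [Matrix.cons_val_zero, Matrix.cons_val_one, Matrix.cons_val, nb11, nb12, nb21,
          nb22, if_true, if_false, hs'.symm]
        exact h2
    · unfold Thin
      rcases hlab with h0l | ⟨h1l, hor⟩
      · rw [h0l]
        exact ⟨by norm_num, fun h => absurd h (by decide), fun h => absurd h (by decide),
          fun h => absurd h (by decide)⟩
      · rw [h1l]
        refine ⟨by norm_num, fun _ => ?_, fun h => absurd h (by decide),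
          fun h => absurd h (by decide)⟩
        show Split G (A ∪ B) a1 a2 b1 b2
        rcases hor with hA1 | hB1
        · obtain ⟨A', A'', j1, j2, j3, j4, j5, j6, j7, j8⟩ := hthinA.2.1 hA1
          have j5' : a1.1 ∈ A' := j5
          have j6' : a2.1 ∈ A' := j6
          have j7' : s1.1 ∈ A'' := j7
          have j8' : s2.1 ∈ A'' := j8
          have hsubA' : A' ⊆ A := by rw [← j2]; exact Finset.subset_union_left
          have hsubA : A'' ⊆ A := by rw [← j2]; exact Finset.subset_union_right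
          have hdd : Disjoint A'' B := hd.mono_left hsubA
          refine ⟨A', A'' ∪ B, ?_, ?_, j3, ?_, j5', j6', ?_, ?_⟩
          · rw [Finset.disjoint_union_right]
            exact ⟨j1, hd.mono_left hsubA'⟩
          · rw [← Finset.union_assoc, j2]
          · have h6 := bd_union_card (G := G) hdd
            have h7 : cr G A'' B = {s1, s2} := by
              apply Finset.Subset.antisymm
              · intro p hp
                rw [← hs]
                have := mem_cr.mp hp
                exact mem_cr.mpr ⟨hsubA this.1, this.2.1, this.2.2⟩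
              · intro p hp
                rw [Finset.mem_insert, Finset.mem_singleton] at hp
                rcases hp with rfl | rfl
                · exact mem_cr.mpr ⟨j7', (mem_cr.mp ms1).2⟩
                · exact mem_cr.mpr ⟨j8', (mem_cr.mp ms2).2⟩
            rw [h7, Finset.card_pair hs12] at h6
            omega
          · exact Finset.mem_union_right _ (mem_oR.mp mb1).1
          · exact Finset.mem_union_right _ (mem_oR.mp mb2).1
        · obtain ⟨B', B'', k1, k2, k3, k4, k5, k6, k7, k8⟩ := hthinB.2.1 hB1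
          have k5' : b1.1 ∈ B' := k5
          have k6' : b2.1 ∈ B' := k6
          have k7' : s1.2 ∈ B'' := k7
          have k8' : s2.2 ∈ B'' := k8
          have hsubB' : B' ⊆ B := by rw [← k2]; exact Finset.subset_union_left
          have hsubB : B'' ⊆ B := by rw [← k2]; exact Finset.subset_union_right
          have hdd : Disjoint A B'' := hd.mono_right hsubB
          refine ⟨A ∪ B'', B', ?_, ?_, ?_, k3, ?_, ?_, k5', k6'⟩
          · rw [Finset.disjoint_union_left]
            exact ⟨hd.mono_right hsubB', k1.symm⟩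
          · rw [Finset.union_assoc, Finset.union_comm B'' B', k2]
          · have h6 := bd_union_card (G := G) hdd
            have h7 : cr G A B'' = {s1, s2} := by
              apply Finset.Subset.antisymm
              · intro p hp
                rw [← hs]
                have := mem_cr.mp hp
                exact mem_cr.mpr ⟨this.1, hsubB this.2.1, this.2.2⟩
              · intro p hp
                rw [Finset.mem_insert, Finset.mem_singleton] at hp
                rcases hp with rfl | rfl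
                · exact mem_cr.mpr ⟨(mem_cr.mp ms1).1, k7', (mem_cr.mp ms1).2.2⟩
                · exact mem_cr.mpr ⟨(mem_cr.mp ms2).1, k8', (mem_cr.mp ms2).2.2⟩
            rw [h7, Finset.card_pair hs12] at h6
            omega
          · exact Finset.mem_union_left _ (mem_oL.mp ma1).1
          · exact Finset.mem_union_left _ (mem_oL.mp ma2).1

end H32P3
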