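import Mathlib
import Pool.Agent.H32P3.Glue

/-!
Closing the last gluing, and paths of 3-poles.
-/

set_option autoImplicit false

namespace H32P3

open Finset

variable {V : Type*} [Fintype V] [DecidableEq V] {G : SimpleGraph V} [DecidableRel G.Adj]

theorem split_contra (hE : E3 G) {A B : Finset V} (hd : Disjoint A B) {a b c d : V × V}
    (hA : Split G A a b c d) (hB : Split G B a.swap b.swap c.swap d.swap) (hcd : c ≠ d)
    (hc : c ∈ cr G A B) (hdm : d ∈ cr G A B) : False := by
  obtain ⟨A', A'', j1, j2, j3, j4, j5, j6, j7, j8⟩ := hA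
  obtain ⟨B', B'', k1, k2, k3, k4, k5, k6, k7, k8⟩ := hB
  have k7' : c.2 ∈ B'' := k7
  have k8' : d.2 ∈ B'' := k8
  have hsubA' : A' ⊆ A := by rw [← j2]; exact Finset.subset_union_left
  have hsubA : A'' ⊆ A := by rw [← j2]; exact Finset.subset_union_right
  have hsubB : B'' ⊆ B := by rw [← k2]; exact Finset.subset_union_right
  have hdd : Disjoint A'' B'' := (hd.mono_right hsubB).mono_left hsubA
  refine thin_contra hE hdd j4 k4 ⟨_, j7⟩ ?_ hcd
    (mem_cr.mpr ⟨j7, k7', (mem_cr.mp hc).2.2⟩)
    (mem_cr.mpr ⟨j8, k8', (mem_cr.mp hdm).2.2⟩)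
  intro hcon
  have h5 : a.1 ∈ A'' ∪ B'' := by rw [hcon]; exact Finset.mem_univ _
  rcases Finset.mem_union.mp h5 with h5 | h5
  · exact (Finset.disjoint_left.mp j1) j5 h5
  · exact (Finset.disjoint_left.mp hd) (hsubA' j5) (hsubB h5)

theorem bd_eq_cr {A B : Finset V} (hd : Disjoint A B) (hu : A ∪ B = Finset.univ) :
    bd G A = cr G A B := by
  rw [bdL hd]
  have : oL G A B = ∅ := by
    unfold oL
    rw [hu, bd_univ]
    simp
  rw [this, Finset.empty_union]

theorem close33 {A B : Finset V} (hd : Disjoint A B) (hu : A ∪ B = Finset.univ)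
    (hA : Inv3 G A) (hB : Inv3 G B) (cA : (bd G A).card = 3)
    (t : V → ZMod 3) (ht : ∑ v, t v = 0) (b : V × V → ZMod 3) : Ext G t (A ∪ B) b := by
  have h1 : bd G A = cr G A B := bd_eq_cr hd hu
  have h2 : bd G B = cr G B A := bd_eq_cr hd.symm (by rw [Finset.union_comm]; exact hu)
  have hcrA : (cr G A B).card = 3 := by rw [← h1]; exact cA
  obtain ⟨s, s2, s3, h12, h13, h23, hs⟩ := Finset.card_eq_three.mp hcrA
  have ms : s ∈ cr G A B := by rw [hs]; simp
  have ms2 : s2 ∈ cr G A B := by rw [hs]; simp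
  have ms' : s.swap ∈ cr G B A := by rw [cr_swap]; exact Finset.mem_image_of_mem _ ms
  have ms2' : s2.swap ∈ cr G B A := by rw [cr_swap]; exact Finset.mem_image_of_mem _ ms2
  have hsum : ∑ v ∈ A, t v + ∑ v ∈ B, t v = 0 := by
    rw [← Finset.sum_union hd, hu]; exact ht
  refine Ext.glue hd (hA t (fun p => if p = s then ∑ v ∈ A, t v else 0) ?_ ?_)
    (hB t (fun p => if p = s.swap then ∑ v ∈ B, t v else 0) ?_ ?_) ?_ ?_ ?_
  · rw [Finset.sum_ite_eq', if_pos (by rw [h1]; exact ms)]
  · exact ⟨s2, by rw [h1]; exact ms2, by rw [if_neg h12.symm]⟩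
  · rw [Finset.sum_ite_eq', if_pos (by rw [h2]; exact ms')]
  · exact ⟨s2.swap, by rw [h2]; exact ms2',
      by rw [if_neg (fun h => h12 (Prod.swap_injective h).symm)]⟩
  · intro p hp
    rw [hu, bd_univ] at hp
    exact absurd hp (Finset.notMem_empty _)
  · intro p hp
    rw [hu, bd_univ] at hp
    exact absurd hp (Finset.notMem_empty _)
  · intro p _
    by_cases hps : p = s
    · subst hps
      simp only [if_true]
      exact eq_neg_of_add_eq_zero_left hsum
    · have : p.swap ≠ s.swap := fun h => hps (Prod.swap_injective h)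
      simp only [hps, this, if_false, neg_zero]

theorem close44 (hE : E3 G) {A B : Finset V} (hd : Disjoint A B) (hu : A ∪ B = Finset.univ)
    (hA : Inv4 G A) (hB : Inv4 G B) (cA : (bd G A).card = 4)
    (t : V → ZMod 3) (ht : ∑ v, t v = 0) (b : V × V → ZMod 3) : Ext G t (A ∪ B) b := by
  have h1 : bd G A = cr G A B := bd_eq_cr hd hu
  have h2 : bd G B = cr G B A := bd_eq_cr hd.symm (by rw [Finset.union_comm]; exact hu)
  have hsum : ∑ v ∈ A, t v + ∑ v ∈ B, t v = 0 := by
    rw [← Finset.sum_union hd, hu]; exact ht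
  -- enumeration
  set φ := (bd G A).equivFinOfCardEq cA with hφ
  set e : Fin 4 → V × V := fun i => ((φ.symm i : {x // x ∈ bd G A}) : V × V) with he
  have heinj : Function.Injective e := fun i j hij => φ.symm.injective (Subtype.ext hij)
  have heim : Finset.univ.image e = bd G A := by
    ext p
    rw [Finset.mem_image]
    constructor
    · rintro ⟨i, _, rfl⟩
      exact (φ.symm i).2
    · intro hp
      exact ⟨φ ⟨p, hp⟩, Finset.mem_univ _, by simp [he]⟩
  have hmem : ∀ i, e i ∈ cr G A B := fun i => by rw [← h1]; exact (φ.symm i).2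
  have heinj' : Function.Injective (fun i => (e i).swap) :=
    fun i j hij => heinj (Prod.swap_injective hij)
  have heim' : Finset.univ.image (fun i => (e i).swap) = bd G B := by
    rw [h2, cr_swap, ← h1, ← heim, Finset.image_image]
    rfl
  obtain ⟨qA, hqA, hextA, hthinA⟩ := hA t e heinj heim
  obtain ⟨qB, hqB, hextB, hthinB⟩ := hB t _ heinj' heim'
  have hneg : ∑ v ∈ B, t v = - ∑ v ∈ A, t v := eq_neg_of_add_eq_zero_right hsum
  rw [hneg] at hqB
  have hl : ¬ (qA.2.2.2 = qB.2.2.2 ∧ qA.2.2.2 ≠ 0) := by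
    rintro ⟨hl1, hl2⟩
    unfold Thin at hthinA hthinB
    rw [← hl1] at hthinB
    generalize qA.2.2.2 = l at hthinA hthinB hl2
    have hl3 := hthinA.1
    have hn : ∀ i j : Fin 4, i ≠ j → e i ≠ e j := fun i j hij h => hij (heinj h)
    interval_cases l
    · exact hl2 rfl
    · exact split_contra hE hd (hthinA.2.1 rfl) (hthinB.2.1 rfl) (hn 2 3 (by decide))
        (hmem 2) (hmem 3)
    · exact split_contra hE hd (hthinA.2.2.1 rfl) (hthinB.2.2.1 rfl) (hn 1 3 (by decide))
        (hmem 1) (hmem 3)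
    · exact split_contra hE hd (hthinA.2.2.2 rfl) (hthinB.2.2.2 rfl) (hn 1 2 (by decide))
        (hmem 1) (hmem 2)
  obtain ⟨x, y, z, w, h5, h6⟩ := close_spec hqA hqB hl
  set bA : V × V → ZMod 3 := fun p =>
    if p = e 0 then x else if p = e 1 then y else if p = e 2 then z else w with hbA
  have v0 : bA (e 0) = x := by simp [hbA]
  have v1 : bA (e 1) = y := by
    have : e 1 ≠ e 0 := fun h => absurd (heinj h) (by decide)
    simp [hbA, this]
  have v2 : bA (e 2) = z := by
    have k0 : e 2 ≠ e 0 := fun h => absurd (heinj h) (by decide)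
    have k1 : e 2 ≠ e 1 := fun h => absurd (heinj h) (by decide)
    simp [hbA, k0, k1]
  have v3 : bA (e 3) = w := by
    have k0 : e 3 ≠ e 0 := fun h => absurd (heinj h) (by decide)
    have k1 : e 3 ≠ e 1 := fun h => absurd (heinj h) (by decide)
    have k2 : e 3 ≠ e 2 := fun h => absurd (heinj h) (by decide)
    simp [hbA, k0, k1, k2]
  refine Ext.glue hd (hextA bA ?_) (hextB (fun p => - bA p.swap) ?_) ?_ ?_ ?_
  · rw [v0, v1, v2, v3]; exact h5
  · simp only [Prod.swap_swap]
    rw [v0, v1, v2, v3]; exact h6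
  · intro p hp
    rw [hu, bd_univ] at hp
    exact absurd hp (Finset.notMem_empty _)
  · intro p hp
    rw [hu, bd_univ] at hp
    exact absurd hp (Finset.notMem_empty _)
  · intro p _
    simp

/-! Paths of 3-poles -/

/-- the union of a list of vertex sets -/
def un : List (Finset V) → Finset V
  | [] => ∅
  | A :: L => A ∪ un L

omit [Fintype V] in
theorem disjoint_un {A : Finset V} {L : List (Finset V)} (h : ∀ B ∈ L, Disjoint A B) :
    Disjoint A (un L) := by
  induction L with
  | nil => exact Finset.disjoint_empty_right _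
  | cons B L ih =>
    unfold un
    rw [Finset.disjoint_union_right]
    exact ⟨h B (by simp), ih (fun C hC => h C (by simp [hC]))⟩

theorem exists_third {A : Finset V} (hc : (bd G A).card = 3) (p q : V × V) :
    ∃ f ∈ bd G A, f ≠ p ∧ f ≠ q := by
  have h1 : ({p, q} : Finset (V × V)).card < (bd G A).card := by
    have := Finset.card_le_two (a := p) (b := q)
    omega
  obtain ⟨f, hf, hf'⟩ := Finset.exists_mem_notMem_of_card_lt_card h1
  rw [Finset.mem_insert, Finset.mem_singleton] at hf'
  push Not at hf'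
  exact ⟨f, hf, hf'.1, hf'.2⟩

/-- one step: a 3-pole in front of a set that can take an arbitrary right value on the edge `e` -/
theorem step_ext {A T : Finset V} (hd : Disjoint A T) (hA : Inv3 G A) (cA : (bd G A).card = 3)
    {p e : V × V} (hpe : p ≠ e) (hp : p ∈ bd G A) (he : e ∈ cr G A T)
    {t : V → ZMod 3} {b bT : V × V → ZMod 3}
    (hbA : ∀ r ∈ bd G (A ∪ T), r.1 ∈ A → r ≠ p → b r = 0)
    (hpT : p.2 ∉ T)
    (hT : Ext G t T bT)
    (hbT1 : ∀ r ∈ bd G (A ∪ T), r.1 ∈ T → bT r = b r)
    (hbT2 : ∀ r ∈ cr G T A, bT r = if r = e.swap then - (∑ v ∈ A, t v - b p) else 0) :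
    Ext G t (A ∪ T) b := by
  refine Ext.glue hd (hA t (fun r => (if r = p then b p else 0) +
    (if r = e then (∑ v ∈ A, t v - b p) else 0)) ?_ ?_) hT ?_ hbT1 ?_
  · rw [Finset.sum_add_distrib, Finset.sum_ite_eq', Finset.sum_ite_eq', if_pos hp, if_pos]
    · ring
    · have := mem_cr.mp he
      exact mem_bd.mpr ⟨this.1, fun h => (Finset.disjoint_left.mp hd) h this.2.1, this.2.2⟩
  · obtain ⟨f, hf, hf1, hf2⟩ := exists_third cA p e
    exact ⟨f, hf, by simp [hf1, hf2]⟩
  · intro r hr hrA
    have hre : r ≠ e := by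
      rintro rfl
      exact (mem_bd.mp hr).2.1 (Finset.mem_union_right _ (mem_cr.mp he).2.1)
    by_cases hrp : r = p
    · subst hrp; simp [hre]
    · rw [hbA r hr hrA hrp]; simp [hre, hrp]
  · intro r hr
    have hrT := mem_cr.mp hr
    have hrp : r ≠ p := by
      rintro rfl
      exact hpT hrT.2.1
    rw [hbT2 r.swap (mem_cr.mpr ⟨hrT.2.1, hrT.1, hrT.2.2.symm⟩)]
    by_cases hre : r = e
    · subst hre; simp [hrp]
    · have : r.swap ≠ e.swap := fun h => hre (Prod.swap_injective h)
      simp [hre, hrp, this]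

/-- a path of 3-poles, entered at `p` and left at `q` -/
theorem path_ext (L : List (Finset V)) : ∀ (A : Finset V) (p q : V × V),
    (A :: L).Pairwise Disjoint → (∀ B ∈ A :: L, (bd G B).card = 3 ∧ Inv3 G B) →
    (A :: L).IsChain (fun B C => (cr G B C).Nonempty) →
    p ∈ bd G (un (A :: L)) → q ∈ bd G (un (A :: L)) → p ≠ q →
    p.1 ∈ A → q.1 ∈ (A :: L).getLast (List.cons_ne_nil _ _) →
    ∀ (t : V → ZMod 3) (b : V × V → ZMod 3),
      (∀ r ∈ bd G (un (A :: L)), r ≠ p → r ≠ q → b r = 0) →
      b p + b q = ∑ v ∈ un (A :: L), t v → Ext G t (un (A :: L)) b := by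
  induction L with
  | nil =>
    intro A p q _ h3 _ hp hq hpq _ _ t b hb hsum
    have hun : un [A] = A := by simp [un]
    rw [hun] at hp hq hb hsum ⊢
    obtain ⟨cA, hA⟩ := h3 A (by simp)
    refine hA t b ?_ ?_
    · rw [← hsum]
      have h1 : ({p, q} : Finset (V × V)) ⊆ bd G A := by
        intro r hr
        rw [Finset.mem_insert, Finset.mem_singleton] at hr
        rcases hr with rfl | rfl
        · exact hp
        · exact hq
      rw [← Finset.sum_subset h1, Finset.sum_pair hpq]
      intro r hr hr'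
      rw [Finset.mem_insert, Finset.mem_singleton] at hr'
      push Not at hr'
      exact hb r hr hr'.1 hr'.2
    · obtain ⟨f, hf, hf1, hf2⟩ := exists_third cA p q
      exact ⟨f, hf, hb f hf hf1 hf2⟩
  | cons B L ih =>
    intro A p q hpw h3 hch hp hq hpq hpA hqL t b hb hsum
    obtain ⟨cA, hA⟩ := h3 A (by simp)
    have hun : un (A :: B :: L) = A ∪ un (B :: L) := rfl
    rw [List.pairwise_cons] at hpw
    have hd : Disjoint A (un (B :: L)) := disjoint_un hpw.1
    rw [List.isChain_cons_cons] at hch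
    obtain ⟨⟨e, heAB⟩, hch'⟩ := hch
    have hBT : B ⊆ un (B :: L) := Finset.subset_union_left
    have he : e ∈ cr G A (un (B :: L)) := by
      have := mem_cr.mp heAB
      exact mem_cr.mpr ⟨this.1, hBT this.2.1, this.2.2⟩
    rw [hun] at hp hq hb hsum ⊢
    have hp' := mem_bd.mp hp
    have hq' := mem_bd.mp hq
    have he' := mem_cr.mp he
    rw [List.getLast_cons (List.cons_ne_nil _ _)] at hqL
    have hqT : q.1 ∈ un (B :: L) := by
      have : ∀ (M : List (Finset V)) (C : Finset V), C ∈ M → C ⊆ un M := by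
        intro M
        induction M with
        | nil => intro C hC; exact absurd hC (by simp)
        | cons D M ihM =>
          intro C hC
          rcases List.mem_cons.mp hC with rfl | hC
          · exact Finset.subset_union_left
          · exact (ihM C hC).trans Finset.subset_union_right
      exact this _ _ (List.getLast_mem _) hqL
    have hqA : q.1 ∉ A := fun h => (Finset.disjoint_left.mp hd) h hqT
    have hpe : p ≠ e := by
      rintro rfl
      exact hp'.2.1 (Finset.mem_union_right _ he'.2.1)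
    have hqe : q ≠ e.swap := by
      rintro rfl
      exact hq'.2.1 (Finset.mem_union_left _ he'.1)
    have hsumU : ∑ v ∈ A ∪ un (B :: L), t v = ∑ v ∈ A, t v + ∑ v ∈ un (B :: L), t v :=
      Finset.sum_union hd
    have heswap : e.swap ∈ bd G (un (B :: L)) :=
      mem_bd.mpr ⟨he'.2.1, fun h => (Finset.disjoint_left.mp hd) he'.1 h, he'.2.2.symm⟩
    refine step_ext (bT := fun r => (if r = e.swap then -(∑ v ∈ A, t v - b p) else 0) +
      (if r = q then b q else 0)) hd hA cA hpe ?_ he ?_ ?_ ?_ ?_ ?_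
    · exact mem_bd.mpr ⟨hpA, fun h => hp'.2.1 (Finset.mem_union_left _ h), hp'.2.2⟩
    · intro r hr hrA hrp
      apply hb r hr hrp
      rintro rfl
      exact hqA hrA
    · exact fun h => hp'.2.1 (Finset.mem_union_right _ h)
    · apply ih B e.swap q hpw.2 (fun C hC => h3 C (List.mem_cons_of_mem _ hC)) hch' heswap
        (mem_bd.mpr ⟨hqT, fun h => hq'.2.1 (Finset.mem_union_right _ h), hq'.2.2⟩) hqe.symm
        (mem_cr.mp heAB).2.1 hqL
      · intro r _ hr1 hr2
        simp [hr1, hr2]
      · simp only [if_true, hqe, hqe.symm, if_false, add_zero, zero_add]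
        rw [hsumU] at hsum
        linear_combination hsum
    · intro r hr hrT
      have hre : r ≠ e.swap := by
        rintro rfl
        exact (mem_bd.mp hr).2.1 (Finset.mem_union_left _ he'.1)
      have hrp : r ≠ p := by
        rintro rfl
        exact (Finset.disjoint_left.mp hd) hpA hrT
      by_cases hrq : r = q
      · subst hrq; simp [hre]
      · rw [hb r hr hrp hrq]; simp [hre, hrq]
    · intro r hr
      have hrq : r ≠ q := by
        rintro rfl
        exact hq'.2.1 (Finset.mem_union_left _ (mem_cr.mp hr).2.1)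
      simp [hrq]

/-- a path of 3-poles, entered at `p`, with free end -/
theorem tail_ext (L : List (Finset V)) : ∀ (A : Finset V) (p : V × V),
    (A :: L).Pairwise Disjoint → (∀ B ∈ A :: L, (bd G B).card = 3 ∧ Inv3 G B) →
    (A :: L).IsChain (fun B C => (cr G B C).Nonempty) →
    p ∈ bd G (un (A :: L)) → p.1 ∈ A →
    ∀ (t : V → ZMod 3) (b : V × V → ZMod 3),
      (∀ r ∈ bd G (un (A :: L)), r ≠ p → b r = 0) →
      b p = ∑ v ∈ un (A :: L), t v → Ext G t (un (A :: L)) b := by
  induction L with
  | nil =>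
    intro A p _ h3 _ hp _ t b hb hsum
    have hun : un [A] = A := by simp [un]
    rw [hun] at hp hb hsum ⊢
    obtain ⟨cA, hA⟩ := h3 A (by simp)
    refine hA t b ?_ ?_
    · rw [← hsum]
      exact Finset.sum_eq_single_of_mem p hp (fun r hr hrp => hb r hr hrp)
    · obtain ⟨f, hf, hf1, _⟩ := exists_third cA p p
      exact ⟨f, hf, hb f hf hf1⟩
  | cons B L ih =>
    intro A p hpw h3 hch hp hpA t b hb hsum
    obtain ⟨cA, hA⟩ := h3 A (by simp)
    have hun : un (A :: B :: L) = A ∪ un (B :: L) := rfl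
    rw [List.pairwise_cons] at hpw
    have hd : Disjoint A (un (B :: L)) := disjoint_un hpw.1
    rw [List.isChain_cons_cons] at hch
    obtain ⟨⟨e, heAB⟩, hch'⟩ := hch
    have hBT : B ⊆ un (B :: L) := Finset.subset_union_left
    have he : e ∈ cr G A (un (B :: L)) := by
      have := mem_cr.mp heAB
      exact mem_cr.mpr ⟨this.1, hBT this.2.1, this.2.2⟩
    rw [hun] at hp hb hsum ⊢
    have hp' := mem_bd.mp hp
    have he' := mem_cr.mp he
    have hpe : p ≠ e := by
      rintro rfl
      exact hp'.2.1 (Finset.mem_union_right _ he'.2.1)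
    have hsumU : ∑ v ∈ A ∪ un (B :: L), t v = ∑ v ∈ A, t v + ∑ v ∈ un (B :: L), t v :=
      Finset.sum_union hd
    have heswap : e.swap ∈ bd G (un (B :: L)) :=
      mem_bd.mpr ⟨he'.2.1, fun h => (Finset.disjoint_left.mp hd) he'.1 h, he'.2.2.symm⟩
    refine step_ext (bT := fun r => (if r = e.swap then -(∑ v ∈ A, t v - b p) else 0))
      hd hA cA hpe ?_ he ?_ ?_ ?_ ?_ ?_
    · exact mem_bd.mpr ⟨hpA, fun h => hp'.2.1 (Finset.mem_union_left _ h), hp'.2.2⟩
    · intro r hr _ hrp
      exact hb r hr hrp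
    · exact fun h => hp'.2.1 (Finset.mem_union_right _ h)
    · apply ih B e.swap hpw.2 (fun C hC => h3 C (List.mem_cons_of_mem _ hC)) hch' heswap
        (mem_cr.mp heAB).2.1
      · intro r _ hr1
        simp [hr1]
      · simp only [if_true]
        rw [hsumU] at hsum
        linear_combination hsum
    · intro r hr hrT
      have hre : r ≠ e.swap := by
        rintro rfl
        exact (mem_bd.mp hr).2.1 (Finset.mem_union_left _ he'.1)
      have hrp : r ≠ p := by
        rintro rfl
        exact (Finset.disjoint_left.mp hd) hpA hrT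
      rw [hb r hr hrp]; simp [hre]
    · intro r _
      rfl

end H32P3
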