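import Mathlib
import Pool.Agent.H32P3.Spec2

/-!
Masks of the states given by Hamilton paths and pairs of paths in a 4-pole.
-/

set_option autoImplicit false
set_option maxRecDepth 100000

namespace H32P3

def tabMH : List ℕ := [
  77033789042897032087553, 94747273949510850095233, 378093874572113515939873,
  378974703259115584006177, 322601452226916857194657, 303426066265347864438817,
  95637325938185457928321, 19198630200343689472129, 321130329981355897161889,
  77043012450118258952353, 20379226324658513553569, 303716603610408696711329,
  397859557469256073914369, 396978724331978477840513, 396688192580820557932577,
  76743248320823741155329, 19189405720134405367937, 302245474627588022896673,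
  77043012450118258952353, 303721215296424909514913, 20374614638642300749985,
  396974117131417735964673, 397864168047104219457569, 396688189203533154265217,
  75857807982985403205633, 303416838407851176667169, 18903482277709589547137,
  755672393200880384475658, 153552220172122718274058, 155913403203550815732490,
  606844062080145244045834, 757941045836193503199754, 611621471558773007991562,
  609205245533785806668554, 158218949186282455106314, 4815825535301697225482,
  606917849337915054752522, 153570378756171840422666, 7177017783931479540490,
  760320972703057145053706, 762663412248441001165322, 760376015768896245154570,
  604482878773839235383818, 153478424189985834992138, 4797666744797796254474,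
  153570666986565167743754, 606917561107534612284170, 7177017783918594687754,
  760376312939401442312714, 762663412033211600028170, 760320675747781349032714,
  151191036650587308425738, 606825606334365542924810, 4742326723670015279882,
  47374141503014275650628, 1246889815654174606758996, 38517398924637927511108,
  1219110746343765512033364, 1209555911623902731965524, 1247297371857906370483284,
  9631524969806310020164, 1218408043360685583111252, 47850872715547540591684,
  10221823031964795671636, 1209701180296433139717204, 38553716092736171807828,
  1256299382396295240356932, 1256186974658528127882324, 1256739798839864599123012,
  9595207388326061675588, 1208965615683801654236244, 38372128565491067655236,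
  38554292553522826450004, 1209702909678690024821844, 10219517188921255924820,
  1256297655131697725183044, 1256742104251933974205524, 1256186396511056267973700,
  37929408396606258287684, 1209519015894950615454804, 9484527346061909824580]

/-- the mask for total `r`, missing pairing `k` and path sums `a`, `b` -/
def MH (r k a b : ZMod 3) : ℕ := tabMH.getD (27 * r.val + 9 * k.val + 3 * a.val + b.val) 0

/-- states given by Hamilton paths and pairs of paths -/
def hst (r k a b x y z w : ZMod 3) : Bool :=
  decide (x + y + z + w = r) &&
    ((decide (y = 0) && decide (w = 0)) || (decide (y = 0) && decide (z = 0)) ||
     (decide (x = 0) && decide (w = 0)) || (decide (x = 0) && decide (z = 0)) ||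
     (decide (k = 0) && (decide (x + z = a) || decide (x + w = b))) ||
     (decide (k = 1) && (decide (x + y = a) || decide (x + w = b))) ||
     (decide (k = 2) && (decide (x + y = a) || decide (x + z = b))))

theorem MH_spec : ∀ r k a b x y z w : ZMod 3, bt (MH r k a b) x y z w = true →
    hst r k a b x y z w = true := by
  decide +kernel

theorem MH_mem : ∀ r k a b : ZMod 3, (OT r).any
    (fun q => Nat.beq (Nat.land (MH r k a b) q.1) q.1 && Nat.beq q.2.2.2 0) = true := by
  decide +kernel

theorem ham_spec (r k a b : ZMod 3) :
    ∃ q ∈ OT r, q.2.2.2 = 0 ∧ ∀ x y z w : ZMod 3, bt q.1 x y z w = true →
      hst r k a b x y z w = true := by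
  have h := MH_mem r k a b
  rw [List.any_eq_true] at h
  obtain ⟨q, hq, h1⟩ := h
  rw [Bool.and_eq_true] at h1
  exact ⟨q, hq, Nat.eq_of_beq_eq_true h1.2,
    fun x y z w hb => MH_spec r k a b x y z w (sub_spec h1.1 hb)⟩

end H32P3
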