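import Mathlib
import Pool.Agent.H32P3.Close
import Pool.Agent.H32P3.MH

/-!
The class of good vertex sets.
-/

set_option autoImplicit false

namespace H32P3

open Finset

variable {V : Type*} [Fintype V] [DecidableEq V] {G : SimpleGraph V} [DecidableRel G.Adj]

/-- `L` is a partition of `S` into vertex sets with three boundary edges each, consecutive members
of `L` are joined by an edge, the dart `p` starts in the first and the dart `q` starts in the last
member of `L`. -/
def HamPath (G : SimpleGraph V) [DecidableRel G.Adj] (S : Finset V) (p q : V × V)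
    (L : List (Finset V)) : Prop :=
  L.Pairwise Disjoint ∧ (∀ B ∈ L, (bd G B).card = 3) ∧
    L.IsChain (fun B C => ∃ u ∈ B, ∃ v ∈ C, G.Adj u v) ∧
    (∀ v, v ∈ S ↔ ∃ B ∈ L, v ∈ B) ∧
    (∃ B, L.head? = some B ∧ p.1 ∈ B) ∧ (∃ B, L.getLast? = some B ∧ q.1 ∈ B)

/-- `A` is the disjoint union of two sets, the first with a path `M` from `p` to `q`, the second
with a path `N` from `r` to `s`. -/
def TwoPaths (G : SimpleGraph V) [DecidableRel G.Adj] (A : Finset V) (p q r s : V × V)
    (M N : List (Finset V)) : Prop :=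
  ∃ S T : Finset V, Disjoint S T ∧ S ∪ T = A ∧ HamPath G S p q M ∧ HamPath G T r s N

/-- the three ways to pair the four boundary darts `e 0, e 1, e 2, e 3` of `A` by two paths -/
def Cover (G : SimpleGraph V) [DecidableRel G.Adj] (A : Finset V) (e : Fin 4 → V × V)
    (M N : Fin 3 → List (Finset V)) : Fin 3 → Prop
  | 0 => TwoPaths G A (e 0) (e 1) (e 2) (e 3) (M 0) (N 0)
  | 1 => TwoPaths G A (e 0) (e 2) (e 1) (e 3) (M 1) (N 1)
  | 2 => TwoPaths G A (e 0) (e 3) (e 1) (e 2) (M 2) (N 2)

/-- Good vertex sets. -/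
inductive Good (G : SimpleGraph V) [DecidableRel G.Adj] : Finset V → Prop
  | vertex (v : V) : Good G {v}
  | join {A B : Finset V} : Good G A → Good G B → Disjoint A B → (bd G (A ∪ B)).card ≤ 4 →
      Good G (A ∪ B)
  | ham3 {A : Finset V} (L : V × V → V × V → List (Finset V)) :
      (bd G A).card = 3 →
      (∀ p ∈ bd G A, ∀ q ∈ bd G A, p ≠ q → HamPath G A p q (L p q)) →
      (∀ p ∈ bd G A, ∀ q ∈ bd G A, p ≠ q → ∀ B ∈ L p q, Good G B) →
      Good G A
  | ham4 {A : Finset V} (e : Fin 4 → V × V) (L : Fin 4 → Fin 4 → List (Finset V)) (k : Fin 3)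
      (M N : Fin 3 → List (Finset V)) :
      Function.Injective e → Finset.univ.image e = bd G A →
      (∀ i j : Fin 4, i.val < 2 → 2 ≤ j.val → HamPath G A (e i) (e j) (L i j)) →
      (∀ i j : Fin 4, i.val < 2 → 2 ≤ j.val → ∀ B ∈ L i j, Good G B) →
      (∀ i : Fin 3, i ≠ k → Cover G A e M N i) →
      (∀ i : Fin 3, i ≠ k → ∀ B ∈ M i, Good G B) →
      (∀ i : Fin 3, i ≠ k → ∀ B ∈ N i, Good G B) →
      Good G A
  | path (L : List (Finset V)) : L.Pairwise Disjoint → (∀ B ∈ L, (bd G B).card = 3) →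
      L.IsChain (fun B C => ∃ u ∈ B, ∃ v ∈ C, G.Adj u v) → (∀ v, ∃ B ∈ L, v ∈ B) →
      (∀ B ∈ L, Good G B) → Good G Finset.univ

omit [Fintype V] in
theorem mem_un {L : List (Finset V)} {v : V} : v ∈ un L ↔ ∃ B ∈ L, v ∈ B := by
  induction L with
  | nil => simp [un]
  | cons A L ih =>
    unfold un
    rw [Finset.mem_union, ih]
    simp

theorem chain_cr {L : List (Finset V)}
    (h : L.IsChain (fun B C => ∃ u ∈ B, ∃ v ∈ C, G.Adj u v)) :
    L.IsChain (fun B C => (cr G B C).Nonempty) := by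
  refine List.IsChain.imp ?_ h
  rintro B C ⟨u, hu, v, hv, hadj⟩
  exact ⟨(u, v), mem_cr.mpr ⟨hu, hv, hadj⟩⟩

theorem HamPath.ext {S : Finset V} {p q : V × V} {L : List (Finset V)}
    (h : HamPath G S p q L) (hL : ∀ B ∈ L, Inv3 G B) (hp : p ∈ bd G S) (hq : q ∈ bd G S)
    (hpq : p ≠ q) (t : V → ZMod 3) (b : V × V → ZMod 3)
    (hb : ∀ r ∈ bd G S, r ≠ p → r ≠ q → b r = 0) (hsum : b p + b q = ∑ v ∈ S, t v) :
    Ext G t S b := by
  obtain ⟨h1, h2, h3, h4, ⟨B0, h5, h5'⟩, ⟨B1, h6, h6'⟩⟩ := h
  cases L with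
  | nil => simp at h5
  | cons A L =>
    have hS : un (A :: L) = S := by
      ext v
      rw [mem_un, h4 v]
    have hA : A = B0 := by simpa using h5
    have hlast : (A :: L).getLast (List.cons_ne_nil _ _) = B1 := by
      rw [List.getLast?_eq_getLast_of_ne_nil (List.cons_ne_nil _ _)] at h6
      exact Option.some.inj h6
    subst hS
    exact path_ext L A p q h1 (fun B hB => ⟨h2 B hB, hL B hB⟩) (chain_cr h3) hp hq hpq
      (by rw [hA]; exact h5') (by rw [hlast]; exact h6') t b hb hsum

theorem TwoPaths.ext {A : Finset V} {p q r s : V × V} {M N : List (Finset V)}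
    (h : TwoPaths G A p q r s M N) (hM : ∀ B ∈ M, Inv3 G B) (hN : ∀ B ∈ N, Inv3 G B)
    (hbd : ∀ x, x ∈ bd G A ↔ x = p ∨ x = q ∨ x = r ∨ x = s)
    (hpq : p ≠ q) (hrs : r ≠ s) (t : V → ZMod 3) :
    ∃ a : ZMod 3, ∀ b : V × V → ZMod 3, b p + b q = a → b p + b q + b r + b s = ∑ v ∈ A, t v →
      Ext G t A b := by
  obtain ⟨S, T, hd, hST, hS, hT⟩ := h
  refine ⟨∑ v ∈ S, t v, ?_⟩
  intro b hb1 hb2
  have hsum : ∑ v ∈ A, t v = ∑ v ∈ S, t v + ∑ v ∈ T, t v := by
    rw [← hST]; exact Finset.sum_union hd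
  have mem1 : ∀ {S' : Finset V} {a c : V × V} {L : List (Finset V)},
      HamPath G S' a c L → a.1 ∈ S' ∧ c.1 ∈ S' := by
    intro S' a c L hL
    obtain ⟨_, _, _, h4, ⟨B0, h5, h5'⟩, ⟨B1, h6, h6'⟩⟩ := hL
    exact ⟨(h4 _).mpr ⟨B0, List.mem_of_head? h5, h5'⟩,
      (h4 _).mpr ⟨B1, List.mem_of_getLast? h6, h6'⟩⟩
  have hpS := (mem1 hS).1
  have hqS := (mem1 hS).2
  have hrT := (mem1 hT).1
  have hsT := (mem1 hT).2
  have hpA : p ∈ bd G A := (hbd p).mpr (Or.inl rfl)
  have hqA : q ∈ bd G A := (hbd q).mpr (Or.inr (Or.inl rfl))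
  have hrA : r ∈ bd G A := (hbd r).mpr (Or.inr (Or.inr (Or.inl rfl)))
  have hsA : s ∈ bd G A := (hbd s).mpr (Or.inr (Or.inr (Or.inr rfl)))
  have hSA : S ⊆ A := by rw [← hST]; exact Finset.subset_union_left
  have hTA : T ⊆ A := by rw [← hST]; exact Finset.subset_union_right
  have mbS : ∀ x, x ∈ bd G A → x.1 ∈ S → x ∈ bd G S := fun x hx hxS =>
    mem_bd.mpr ⟨hxS, fun hc => (mem_bd.mp hx).2.1 (hSA hc), (mem_bd.mp hx).2.2⟩
  have mbT : ∀ x, x ∈ bd G A → x.1 ∈ T → x ∈ bd G T := fun x hx hxT =>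
    mem_bd.mpr ⟨hxT, fun hc => (mem_bd.mp hx).2.1 (hTA hc), (mem_bd.mp hx).2.2⟩
  have e1 := hS.ext hM (mbS p hpA hpS) (mbS q hqA hqS) hpq t
    (fun x => if x = p then b p else if x = q then b q else 0)
    (fun x _ h1 h2 => by simp only [h1, h2, if_false])
    (by simp only [if_true, hpq.symm, if_false]; exact hb1)
  have e2 := hT.ext hN (mbT r hrA hrT) (mbT s hsA hsT) hrs t
    (fun x => if x = r then b r else if x = s then b s else 0)
    (fun x _ h1 h2 => by simp only [h1, h2, if_false])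
    (by
      simp only [if_true, hrs.symm, if_false]
      rw [hsum] at hb2
      linear_combination hb2 - hb1)
  subst hST
  refine Ext.glue hd e1 e2 ?_ ?_ ?_
  · intro x hx hxS
    rcases (hbd x).mp hx with rfl | rfl | rfl | rfl
    · simp
    · simp [hpq.symm]
    · exact absurd hrT ((Finset.disjoint_left.mp hd) hxS)
    · exact absurd hsT ((Finset.disjoint_left.mp hd) hxS)
  · intro x hx hxT
    rcases (hbd x).mp hx with rfl | rfl | rfl | rfl
    · exact absurd hxT ((Finset.disjoint_left.mp hd) hpS)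
    · exact absurd hxT ((Finset.disjoint_left.mp hd) hqS)
    · simp
    · simp [hrs.symm]
  · intro x hx
    have hx' := mem_cr.mp hx
    have n1 : x ≠ p := fun h => (mem_bd.mp hpA).2.1 (h ▸ Finset.mem_union_right _ hx'.2.1)
    have n2 : x ≠ q := fun h => (mem_bd.mp hqA).2.1 (h ▸ Finset.mem_union_right _ hx'.2.1)
    have hxs : x.swap.2 ∈ S := hx'.1
    have n3 : x.swap ≠ r := fun h => (mem_bd.mp hrA).2.1 (h ▸ Finset.mem_union_left _ hxs)
    have n4 : x.swap ≠ s := fun h => (mem_bd.mp hsA).2.1 (h ▸ Finset.mem_union_left _ hxs)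
    simp only [n1, n2, n3, n4, if_false, neg_zero]

/-- what good sets satisfy -/
def Prp (G : SimpleGraph V) [DecidableRel G.Adj] (A : Finset V) : Prop :=
  A.Nonempty ∧
  (A ≠ Finset.univ → ((bd G A).card = 3 ∧ Inv3 G A) ∨ ((bd G A).card = 4 ∧ Inv4 G A)) ∧
  (A = Finset.univ → ∀ (t : V → ZMod 3) (b : V × V → ZMod 3), ∑ v, t v = 0 → Ext G t A b)

theorem Prp.inv3 {A : Finset V} (h : Prp G A) (hc : (bd G A).card = 3) : Inv3 G A := by
  have hne : A ≠ Finset.univ := by
    rintro rfl
    rw [bd_univ] at hc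
    simp at hc
  rcases h.2.1 hne with h1 | h1
  · exact h1.2
  · omega

theorem ne_univ_of_bd {A : Finset V} {n : ℕ} (hc : (bd G A).card = n) (hn : n ≠ 0) :
    A ≠ Finset.univ := by
  rintro rfl
  rw [bd_univ] at hc
  simp at hc
  exact hn hc.symm

theorem nonempty_of_bd {A : Finset V} {n : ℕ} (hc : (bd G A).card = n) (hn : n ≠ 0) :
    A.Nonempty := by
  have : (bd G A).Nonempty := by
    rw [← Finset.card_pos]; omega
  obtain ⟨p, hp⟩ := this
  exact ⟨p.1, (mem_bd.mp hp).1⟩

theorem Good.prp (hE : E3 G) (hcub : ∀ v : V, G.degree v = 3) (hcard : 4 ≤ Fintype.card V)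
    {A : Finset V} (h : Good G A) : Prp G A := by
  induction h with
  | vertex v =>
    have hc : (bd G ({v} : Finset V)).card = 3 := by
      rw [← hcub v, ← SimpleGraph.card_neighborFinset_eq_degree]
      apply Finset.card_bij (fun p _ => p.2)
      · intro p hp
        have := mem_bd.mp hp
        rw [Finset.mem_singleton] at this
        rw [SimpleGraph.mem_neighborFinset, ← this.1]
        exact this.2.2
      · intro p hp q hq hpq
        have h1 := (mem_bd.mp hp).1
        have h2 := (mem_bd.mp hq).1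
        rw [Finset.mem_singleton] at h1 h2
        exact Prod.ext (h1.trans h2.symm) hpq
      · intro w hw
        rw [SimpleGraph.mem_neighborFinset] at hw
        exact ⟨(v, w), mem_bd.mpr ⟨Finset.mem_singleton_self _,
          fun hc => hw.ne (Finset.mem_singleton.mp hc).symm, hw⟩, rfl⟩
    refine ⟨⟨v, Finset.mem_singleton_self v⟩, fun _ => Or.inl ⟨hc, ?_⟩, ?_⟩
    · intro t b hs hz
      rw [Finset.sum_singleton] at hs
      exact Ext.single hs hz
    · intro hu
      exact absurd hu (ne_univ_of_bd hc (by norm_num))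
  | @join A B _ _ hd hcut ihA ihB =>
    have hneA : A ≠ Finset.univ := by
      rintro rfl
      obtain ⟨x, hx⟩ := ihB.1
      exact (Finset.disjoint_left.mp hd) (Finset.mem_univ x) hx
    have hneB : B ≠ Finset.univ := by
      rintro rfl
      obtain ⟨x, hx⟩ := ihA.1
      exact (Finset.disjoint_left.mp hd) hx (Finset.mem_univ x)
    have hA := ihA.2.1 hneA
    have hB := ihB.2.1 hneB
    have hcount := bd_union_card (G := G) hd
    refine ⟨ihA.1.mono Finset.subset_union_left, ?_, ?_⟩
    · intro hu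
      have h3 := hE (A ∪ B) (ihA.1.mono Finset.subset_union_left) hu
      rcases hA with ⟨cA, iA⟩ | ⟨cA, iA⟩ <;> rcases hB with ⟨cB, iB⟩ | ⟨cB, iB⟩
      · have hc : (bd G (A ∪ B)).card = 4 := by omega
        exact Or.inr ⟨hc, join33 hd iA iB cA cB hc⟩
      · have hc : (bd G (A ∪ B)).card = 3 := by omega
        exact Or.inl ⟨hc, join34 hE hd iA iB cA cB hc ihA.1 hu⟩
      · have hc : (bd G (A ∪ B)).card = 3 := by omega
        refine Or.inl ⟨hc, ?_⟩
        rw [Finset.union_comm]
        rw [Finset.union_comm] at hc hu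
        exact join34 hE hd.symm iB iA cB cA hc ihB.1 hu
      · have hc : (bd G (A ∪ B)).card = 4 := by omega
        exact Or.inr ⟨hc, join44 hE hd iA iB cA cB hc⟩
    · intro hu t b ht
      have h0 : (bd G (A ∪ B)).card = 0 := by rw [hu, bd_univ]; simp
      rcases hA with ⟨cA, iA⟩ | ⟨cA, iA⟩ <;> rcases hB with ⟨cB, iB⟩ | ⟨cB, iB⟩
      · exact close33 hd hu iA iB cA t ht b
      · omega
      · omega
      · exact close44 hE hd hu iA iB cA t ht b
  | @ham3 A L hc hL _ ih =>
    refine ⟨nonempty_of_bd hc (by norm_num), fun _ => Or.inl ⟨hc, ?_⟩,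
      fun hu => absurd hu (ne_univ_of_bd hc (by norm_num))⟩
    intro t b hs hz
    obtain ⟨f, hf, hf0⟩ := hz
    -- the other two darts
    have hc2 : ((bd G A).erase f).card = 2 := by
      rw [Finset.card_erase_of_mem hf, hc]
    obtain ⟨p, q, hpq, hpq'⟩ := Finset.card_eq_two.mp hc2
    have hp : p ∈ (bd G A).erase f := by rw [hpq']; simp
    have hq : q ∈ (bd G A).erase f := by rw [hpq']; simp
    have hp' := Finset.mem_of_mem_erase hp
    have hq' := Finset.mem_of_mem_erase hq
    refine (hL p hp' q hq' hpq).ext ?_ hp' hq' hpq t b ?_ ?_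
    · intro B hB
      exact (ih p hp' q hq' hpq B hB).inv3 ((hL p hp' q hq' hpq).2.1 B hB)
    · intro r hr hrp hrq
      by_cases hrf : r = f
      · rw [hrf]; exact hf0
      · have : r ∈ (bd G A).erase f := Finset.mem_erase.mpr ⟨hrf, hr⟩
        rw [hpq', Finset.mem_insert, Finset.mem_singleton] at this
        rcases this with h | h
        · exact absurd h hrp
        · exact absurd h hrq
    · rw [← hs, ← Finset.add_sum_erase _ _ hf, hf0, zero_add, hpq', Finset.sum_pair hpq]
  | @ham4 A e L k M N heinj heim hL _ hcov _ _ ihL ihM ihN =>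
    have hc : (bd G A).card = 4 := by
      rw [← heim, Finset.card_image_of_injective _ heinj]
      simp
    refine ⟨nonempty_of_bd hc (by norm_num), fun _ => Or.inr ⟨hc, ?_⟩,
      fun hu => absurd hu (ne_univ_of_bd hc (by norm_num))⟩
    have hmem : ∀ i, e i ∈ bd G A := fun i => by
      rw [← heim]; exact Finset.mem_image_of_mem _ (Finset.mem_univ i)
    have hbd : ∀ x, x ∈ bd G A ↔ x = e 0 ∨ x = e 1 ∨ x = e 2 ∨ x = e 3 := by
      intro x
      rw [← heim, Finset.mem_image]
      constructor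
      · rintro ⟨i, _, rfl⟩
        have h4 : ∀ z : Fin 4, z = 0 ∨ z = 1 ∨ z = 2 ∨ z = 3 := by decide
        rcases h4 i with rfl | rfl | rfl | rfl
        · exact Or.inl rfl
        · exact Or.inr (Or.inl rfl)
        · exact Or.inr (Or.inr (Or.inl rfl))
        · exact Or.inr (Or.inr (Or.inr rfl))
      · rintro (rfl | rfl | rfl | rfl)
        · exact ⟨0, Finset.mem_univ _, rfl⟩
        · exact ⟨1, Finset.mem_univ _, rfl⟩
        · exact ⟨2, Finset.mem_univ _, rfl⟩
        · exact ⟨3, Finset.mem_univ _, rfl⟩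
    have hn : ∀ i j : Fin 4, i ≠ j → e i ≠ e j := fun i j hij h => hij (heinj h)
    apply Inv4_of_one heim
    intro t
    -- single paths
    have hsingle : ∀ i j : Fin 4, i.val < 2 → 2 ≤ j.val → ∀ b : V × V → ZMod 3,
        (∀ m : Fin 4, m ≠ i → m ≠ j → b (e m) = 0) → b (e i) + b (e j) = ∑ v ∈ A, t v →
        Ext G t A b := by
      intro i j hi hj b hb hsum
      have hij : i ≠ j := by
        rintro rfl; omega
      refine (hL i j hi hj).ext ?_ (hmem i) (hmem j) (hn i j hij) t b ?_ hsum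
      · intro B hB
        exact (ihL i j hi hj B hB).inv3 ((hL i j hi hj).2.1 B hB)
      · intro r hr hri hrj
        rw [← heim, Finset.mem_image] at hr
        obtain ⟨m, _, rfl⟩ := hr
        exact hb m (fun h => hri (by rw [h])) (fun h => hrj (by rw [h]))
    -- pairs of paths
    have hIM : ∀ i : Fin 3, i ≠ k → (∀ B ∈ M i, (bd G B).card = 3) → ∀ B ∈ M i, Inv3 G B :=
      fun i hi h B hB => (ihM i hi B hB).inv3 (h B hB)
    have hIN : ∀ i : Fin 3, i ≠ k → (∀ B ∈ N i, (bd G B).card = 3) → ∀ B ∈ N i, Inv3 G B :=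
      fun i hi h B hB => (ihN i hi B hB).inv3 (h B hB)
    have hc0 : (0 : Fin 3) ≠ k → ∃ a : ZMod 3, ∀ b : V × V → ZMod 3, b (e 0) + b (e 1) = a →
        b (e 0) + b (e 1) + b (e 2) + b (e 3) = ∑ v ∈ A, t v → Ext G t A b := by
      intro h0
      have hcv : TwoPaths G A (e 0) (e 1) (e 2) (e 3) (M 0) (N 0) := hcov 0 h0
      have hcv' := hcv
      obtain ⟨S, T, _, _, hS, hT⟩ := hcv'
      exact hcv.ext (hIM 0 h0 hS.2.1) (hIN 0 h0 hT.2.1) hbd (hn 0 1 (by decide))
        (hn 2 3 (by decide)) t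
    have hc1 : (1 : Fin 3) ≠ k → ∃ a : ZMod 3, ∀ b : V × V → ZMod 3, b (e 0) + b (e 2) = a →
        b (e 0) + b (e 2) + b (e 1) + b (e 3) = ∑ v ∈ A, t v → Ext G t A b := by
      intro h0
      have hcv : TwoPaths G A (e 0) (e 2) (e 1) (e 3) (M 1) (N 1) := hcov 1 h0
      have hcv' := hcv
      obtain ⟨S, T, _, _, hS, hT⟩ := hcv'
      exact hcv.ext (hIM 1 h0 hS.2.1) (hIN 1 h0 hT.2.1)
        (fun x => by rw [hbd x]; tauto) (hn 0 2 (by decide)) (hn 1 3 (by decide)) t
    have hc2 : (2 : Fin 3) ≠ k → ∃ a : ZMod 3, ∀ b : V × V → ZMod 3, b (e 0) + b (e 3) = a →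
        b (e 0) + b (e 3) + b (e 1) + b (e 2) = ∑ v ∈ A, t v → Ext G t A b := by
      intro h0
      have hcv : TwoPaths G A (e 0) (e 3) (e 1) (e 2) (M 2) (N 2) := hcov 2 h0
      have hcv' := hcv
      obtain ⟨S, T, _, _, hS, hT⟩ := hcv'
      exact hcv.ext (hIM 2 h0 hS.2.1) (hIN 2 h0 hT.2.1)
        (fun x => by rw [hbd x]; tauto) (hn 0 3 (by decide)) (hn 1 2 (by decide)) t
    -- common part
    have main : ∀ (kk a c : ZMod 3),
        (kk = 0 → (∀ b : V × V → ZMod 3, b (e 0) + b (e 2) = a →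
            b (e 0) + b (e 2) + b (e 1) + b (e 3) = ∑ v ∈ A, t v → Ext G t A b) ∧
          (∀ b : V × V → ZMod 3, b (e 0) + b (e 3) = c →
            b (e 0) + b (e 3) + b (e 1) + b (e 2) = ∑ v ∈ A, t v → Ext G t A b)) →
        (kk = 1 → (∀ b : V × V → ZMod 3, b (e 0) + b (e 1) = a →
            b (e 0) + b (e 1) + b (e 2) + b (e 3) = ∑ v ∈ A, t v → Ext G t A b) ∧
          (∀ b : V × V → ZMod 3, b (e 0) + b (e 3) = c →
            b (e 0) + b (e 3) + b (e 1) + b (e 2) = ∑ v ∈ A, t v → Ext G t A b)) →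
        (kk = 2 → (∀ b : V × V → ZMod 3, b (e 0) + b (e 1) = a →
            b (e 0) + b (e 1) + b (e 2) + b (e 3) = ∑ v ∈ A, t v → Ext G t A b) ∧
          (∀ b : V × V → ZMod 3, b (e 0) + b (e 2) = c →
            b (e 0) + b (e 2) + b (e 1) + b (e 3) = ∑ v ∈ A, t v → Ext G t A b)) →
        InvAt G t A e := by
      intro kk a c k0 k1 k2
      obtain ⟨q, hq, hql, hqs⟩ := ham_spec (∑ v ∈ A, t v) kk a c
      refine ⟨q, hq, ?_, ?_⟩
      · intro b hb
        have h1 := hqs _ _ _ _ hb
        unfold hst at h1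
        simp only [Bool.and_eq_true, Bool.or_eq_true, decide_eq_true_eq] at h1
        obtain ⟨hs, h1⟩ := h1
        rcases h1 with (((((⟨z1, z2⟩ | ⟨z1, z2⟩) | ⟨z1, z2⟩) | ⟨z1, z2⟩) | ⟨z0, z1⟩) | ⟨z0, z1⟩)
          | ⟨z0, z1⟩
        · refine hsingle 0 2 (by decide) (by decide) b ?_ ?_
          · intro m hm1 hm2
            have h4 : ∀ z : Fin 4, z ≠ 0 → z ≠ 2 → z = 1 ∨ z = 3 := by decide
            rcases h4 m hm1 hm2 with rfl | rfl
            · exact z1
            · exact z2
          · rw [← hs, z1, z2]; ring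
        · refine hsingle 0 3 (by decide) (by decide) b ?_ ?_
          · intro m hm1 hm2
            have h4 : ∀ z : Fin 4, z ≠ 0 → z ≠ 3 → z = 1 ∨ z = 2 := by decide
            rcases h4 m hm1 hm2 with rfl | rfl
            · exact z1
            · exact z2
          · rw [← hs, z1, z2]; ring
        · refine hsingle 1 2 (by decide) (by decide) b ?_ ?_
          · intro m hm1 hm2
            have h4 : ∀ z : Fin 4, z ≠ 1 → z ≠ 2 → z = 0 ∨ z = 3 := by decide
            rcases h4 m hm1 hm2 with rfl | rfl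
            · exact z1
            · exact z2
          · rw [← hs, z1, z2]; ring
        · refine hsingle 1 3 (by decide) (by decide) b ?_ ?_
          · intro m hm1 hm2
            have h4 : ∀ z : Fin 4, z ≠ 1 → z ≠ 3 → z = 0 ∨ z = 2 := by decide
            rcases h4 m hm1 hm2 with rfl | rfl
            · exact z1
            · exact z2
          · rw [← hs, z1, z2]; ring
        · rcases z1 with z1 | z1
          · exact (k0 z0).1 b z1 (by rw [← hs]; ring)
          · exact (k0 z0).2 b z1 (by rw [← hs]; ring)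
        · rcases z1 with z1 | z1
          · exact (k1 z0).1 b z1 (by rw [← hs])
          · exact (k1 z0).2 b z1 (by rw [← hs]; ring)
        · rcases z1 with z1 | z1
          · exact (k2 z0).1 b z1 (by rw [← hs])
          · exact (k2 z0).2 b z1 (by rw [← hs]; ring)
      · unfold Thin
        rw [hql]
        exact ⟨by norm_num, fun h => absurd h (by decide), fun h => absurd h (by decide),
          fun h => absurd h (by decide)⟩
    have hk : k = 0 ∨ k = 1 ∨ k = 2 := by
      revert k
      intro k _ _ _ _ _ _ _ _ _ _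
      have : ∀ z : Fin 3, z = 0 ∨ z = 1 ∨ z = 2 := by decide
      exact this k
    rcases hk with rfl | rfl | rfl
    · obtain ⟨a, ha⟩ := hc1 (by decide)
      obtain ⟨c, hc'⟩ := hc2 (by decide)
      exact main 0 a c (fun _ => ⟨ha, hc'⟩) (fun h => absurd h (by decide))
        (fun h => absurd h (by decide))
    · obtain ⟨a, ha⟩ := hc0 (by decide)
      obtain ⟨c, hc'⟩ := hc2 (by decide)
      exact main 1 a c (fun h => absurd h (by decide)) (fun _ => ⟨ha, hc'⟩)
        (fun h => absurd h (by decide))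
    · obtain ⟨a, ha⟩ := hc0 (by decide)
      obtain ⟨c, hc'⟩ := hc1 (by decide)
      exact main 2 a c (fun h => absurd h (by decide)) (fun h => absurd h (by decide))
        (fun _ => ⟨ha, hc'⟩)
  | @path L hpw h3 hch hcov _ ih =>
    have hV : (Finset.univ : Finset V).Nonempty := by
      rw [← Finset.card_pos, Finset.card_univ]; omega
    refine ⟨hV, fun h => absurd rfl h, ?_⟩
    intro _ t b ht
    have hun : un L = Finset.univ := by
      ext v
      rw [mem_un]
      simp [hcov v]
    cases L with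
    | nil =>
      obtain ⟨v, _⟩ := hV
      obtain ⟨B, hB, _⟩ := hcov v
      simp at hB
    | cons A L =>
      cases L with
      | nil =>
        have hA : A = Finset.univ := by
          rw [← hun]; simp [un]
        have := h3 A (by simp)
        exact absurd hA (ne_univ_of_bd this (by norm_num))
      | cons B L =>
        have hpw' := List.pairwise_cons.mp hpw
        have hch2 := chain_cr hch
        rw [List.isChain_cons_cons] at hch2
        obtain ⟨⟨e, he⟩, hch'⟩ := hch2
        have hd : Disjoint A (un (B :: L)) := disjoint_un hpw'.1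
        have hunU : A ∪ un (B :: L) = Finset.univ := hun
        have hA : Inv3 G A := (ih A (by simp)).inv3 (h3 A (by simp))
        have cA := h3 A (by simp)
        have he' := mem_cr.mp he
        have heT : e ∈ cr G A (un (B :: L)) :=
          mem_cr.mpr ⟨he'.1, Finset.mem_union_left _ he'.2.1, he'.2.2⟩
        have hswap : e.swap ∈ bd G (un (B :: L)) :=
          mem_bd.mpr ⟨Finset.mem_union_left _ he'.2.1,
            fun h => (Finset.disjoint_left.mp hd) he'.1 h, he'.2.2.symm⟩
        have hsum : ∑ v ∈ A, t v + ∑ v ∈ un (B :: L), t v = 0 := by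
          rw [← Finset.sum_union hd, hunU]; exact ht
        have hT : Ext G t (un (B :: L)) (fun r => if r = e.swap then - ∑ v ∈ A, t v else 0) := by
          apply tail_ext L B e.swap hpw'.2
            (fun C hC => ⟨h3 C (List.mem_cons_of_mem _ hC),
              (ih C (List.mem_cons_of_mem _ hC)).inv3 (h3 C (List.mem_cons_of_mem _ hC))⟩)
            hch' hswap he'.2.1
          · intro r _ hr
            simp [hr]
          · simp only [if_true]
            exact neg_eq_of_add_eq_zero_right hsum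
        have heA : e ∈ bd G A :=
          mem_bd.mpr ⟨he'.1, fun h => (Finset.disjoint_left.mp hd) h (mem_cr.mp heT).2.1,
            he'.2.2⟩
        have hAe : Ext G t A (fun r => if r = e then ∑ v ∈ A, t v else 0) := by
          refine hA t _ ?_ ?_
          · rw [Finset.sum_ite_eq', if_pos heA]
          · obtain ⟨f, hf, hf1, _⟩ := exists_third cA e e
            exact ⟨f, hf, by simp [hf1]⟩
        rw [← hunU]
        refine Ext.glue hd hAe hT ?_ ?_ ?_
        · intro p hp
          rw [hunU, bd_univ] at hp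
          exact absurd hp (Finset.notMem_empty _)
        · intro p hp
          rw [hunU, bd_univ] at hp
          exact absurd hp (Finset.notMem_empty _)
        · intro r _
          by_cases hre : r = e
          · subst hre; simp
          · have : r.swap ≠ e.swap := fun h => hre (Prod.swap_injective h)
            simp [hre, this]

end H32P3
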