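import Mathlib
import Pool.Agent.H32P3.Good

/-!
From skew functions with zeros to P3-factors.
-/

set_option autoImplicit false

namespace H32P3

open Finset

variable {V : Type*} [Fintype V] [DecidableEq V] {G : SimpleGraph V} [DecidableRel G.Adj]

/-- the possible values -/
def tv (x y z : ZMod 3) : Bool :=
  (decide (x = 1) && decide (y = 0) && decide (z = 0)) ||
  (decide (x = 0) && decide (y = 1) && decide (z = 0)) ||
  (decide (x = 0) && decide (y = 0) && decide (z = 1)) ||
  (decide (x = 0) && decide (y = 2) && decide (z = 2)) ||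
  (decide (x = 2) && decide (y = 0) && decide (z = 2)) ||
  (decide (x = 2) && decide (y = 2) && decide (z = 0))

theorem tv_spec : ∀ x y z : ZMod 3, x + y + z = 1 → (x = 0 ∨ y = 0 ∨ z = 0) →
    tv x y z = true := by
  decide

theorem three_vals (x y z : ZMod 3) (h : x + y + z = 1) (h0 : x = 0 ∨ y = 0 ∨ z = 0) :
    (x = 1 ∧ y = 0 ∧ z = 0) ∨ (x = 0 ∧ y = 1 ∧ z = 0) ∨ (x = 0 ∧ y = 0 ∧ z = 1) ∨
    (x = 0 ∧ y = 2 ∧ z = 2) ∨ (x = 2 ∧ y = 0 ∧ z = 2) ∨ (x = 2 ∧ y = 2 ∧ z = 0) := by
  have h1 := tv_spec x y z h h0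
  unfold tv at h1
  simp only [Bool.or_eq_true, Bool.and_eq_true, decide_eq_true_eq] at h1
  tauto

/-- at every vertex: one value 1 and the rest 0, or two values 2 and the rest 0 -/
theorem local_shape (hcub : ∀ v : V, G.degree v = 3) {y : V → V → ZMod 3}
    (hn : ∀ u v, ¬ G.Adj u v → y u v = 0) (hs : ∀ u, ∑ v, y u v = 1)
    (hz : ∀ u, ∃ v, G.Adj u v ∧ y u v = 0) (u : V) :
    (∃ a, y u a = 1 ∧ ∀ x, x ≠ a → y u x = 0) ∨
    (∃ a b, a ≠ b ∧ y u a = 2 ∧ y u b = 2 ∧ ∀ x, x ≠ a → x ≠ b → y u x = 0) := by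
  have hc : (G.neighborFinset u).card = 3 := by
    rw [SimpleGraph.card_neighborFinset_eq_degree]; exact hcub u
  obtain ⟨a, b, c, hab, hac, hbc, hN⟩ := Finset.card_eq_three.mp hc
  have hout : ∀ x, x ≠ a → x ≠ b → x ≠ c → y u x = 0 := by
    intro x h1 h2 h3
    apply hn
    intro hadj
    have : x ∈ G.neighborFinset u := by rw [SimpleGraph.mem_neighborFinset]; exact hadj
    rw [hN] at this
    simp only [Finset.mem_insert, Finset.mem_singleton] at this
    rcases this with h | h | h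
    · exact h1 h
    · exact h2 h
    · exact h3 h
  have hsum : y u a + y u b + y u c = 1 := by
    rw [← hs u]
    have : ∑ v ∈ ({a, b, c} : Finset V), y u v = ∑ v, y u v := by
      apply Finset.sum_subset (Finset.subset_univ _)
      intro x _ hx
      simp only [Finset.mem_insert, Finset.mem_singleton, not_or] at hx
      exact hout x hx.1 hx.2.1 hx.2.2
    rw [← this, Finset.sum_insert (by simp [hab, hac]), Finset.sum_insert (by simp [hbc]),
      Finset.sum_singleton]
    ring
  have hzero : y u a = 0 ∨ y u b = 0 ∨ y u c = 0 := by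
    obtain ⟨v, hv, hv0⟩ := hz u
    have : v ∈ G.neighborFinset u := by rw [SimpleGraph.mem_neighborFinset]; exact hv
    rw [hN] at this
    simp only [Finset.mem_insert, Finset.mem_singleton] at this
    rcases this with rfl | rfl | rfl
    · exact Or.inl hv0
    · exact Or.inr (Or.inl hv0)
    · exact Or.inr (Or.inr hv0)
  rcases three_vals _ _ _ hsum hzero with ⟨h1, h2, h3⟩ | ⟨h1, h2, h3⟩ | ⟨h1, h2, h3⟩ |
    ⟨h1, h2, h3⟩ | ⟨h1, h2, h3⟩ | ⟨h1, h2, h3⟩
  · left
    refine ⟨a, h1, fun x hx => ?_⟩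
    by_cases hb : x = b
    · rw [hb]; exact h2
    · by_cases hc' : x = c
      · rw [hc']; exact h3
      · exact hout x hx hb hc'
  · left
    refine ⟨b, h2, fun x hx => ?_⟩
    by_cases ha : x = a
    · rw [ha]; exact h1
    · by_cases hc' : x = c
      · rw [hc']; exact h3
      · exact hout x ha hx hc'
  · left
    refine ⟨c, h3, fun x hx => ?_⟩
    by_cases ha : x = a
    · rw [ha]; exact h1
    · by_cases hb : x = b
      · rw [hb]; exact h2
      · exact hout x ha hb hx
  · right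
    refine ⟨b, c, hbc, h2, h3, fun x hxb hxc => ?_⟩
    by_cases ha : x = a
    · rw [ha]; exact h1
    · exact hout x ha hxb hxc
  · right
    refine ⟨a, c, hac, h1, h3, fun x hxa hxc => ?_⟩
    by_cases hb : x = b
    · rw [hb]; exact h2
    · exact hout x hxa hb hxc
  · right
    refine ⟨a, b, hab, h1, h2, fun x hxa hxb => ?_⟩
    by_cases hc' : x = c
    · rw [hc']; exact h3
    · exact hout x hxa hxb hc'

theorem neg_one_eq : (-1 : ZMod 3) = 2 := by decide
theorem neg_two_eq : (-2 : ZMod 3) = 1 := by decide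

/-- the P3-factor -/
theorem factor_of_ext (hcub : ∀ v : V, G.degree v = 3) {b : V × V → ZMod 3}
    (h : Ext G (fun _ => 1) Finset.univ b) :
    ∃ H : SimpleGraph V, H ≤ G ∧ ∀ v : V, ∃ a b c : V,
        a ≠ b ∧ b ≠ c ∧ a ≠ c ∧ H.Adj a b ∧ H.Adj b c ∧ ¬ H.Adj a c ∧
        (v = a ∨ v = b ∨ v = c) ∧
        ∀ x y : V, H.Adj x y → (x = a ∨ x = b ∨ x = c) → (y = a ∨ y = b ∨ y = c) := by
  obtain ⟨y, ya, yn, _, ys, yz⟩ := h
  have ya' : ∀ u v, y u v = - y v u := fun u v => ya u (Finset.mem_univ u) v (Finset.mem_univ v)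
  have yn' : ∀ u v, ¬ G.Adj u v → y u v = 0 := fun u v => yn u (Finset.mem_univ u) v
  have ys' : ∀ u, ∑ v, y u v = 1 := fun u => ys u (Finset.mem_univ u)
  have yz' : ∀ u, ∃ v, G.Adj u v ∧ y u v = 0 := fun u => yz u (Finset.mem_univ u)
  have shape := local_shape hcub yn' ys' yz'
  have n10 : (1 : ZMod 3) ≠ 0 := by decide
  have n20 : (2 : ZMod 3) ≠ 0 := by decide
  have n12 : (1 : ZMod 3) ≠ 2 := by decide
  let H : SimpleGraph V :=
    { Adj := fun u v => y u v ≠ 0
      symm := ⟨fun u v huv hvu => huv (by rw [ya' u v, hvu, neg_zero])⟩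
      loopless := ⟨fun u hu => hu (yn' u u (SimpleGraph.irrefl G))⟩ }
  have hH : ∀ u v, H.Adj u v ↔ y u v ≠ 0 := fun u v => Iff.rfl
  refine ⟨H, ?_, ?_⟩
  · intro u v huv
    by_contra hc
    exact huv (yn' u v hc)
  · -- statement for centres
    have centre : ∀ w a c : V, a ≠ c → y w a = 2 → y w c = 2 →
        (∀ x, x ≠ a → x ≠ c → y w x = 0) →
        a ≠ w ∧ w ≠ c ∧ a ≠ c ∧ H.Adj a w ∧ H.Adj w c ∧ ¬ H.Adj a c ∧
        ∀ x z : V, H.Adj x z → (x = a ∨ x = w ∨ x = c) → (z = a ∨ z = w ∨ z = c) := by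
      intro w a c hac h1 h2 h3
      have hwa : y a w = 1 := by rw [ya' a w, h1]; decide
      have hwc : y c w = 1 := by rw [ya' c w, h2]; decide
      have leaf : ∀ a' : V, y a' w = 1 → ∀ x, x ≠ w → y a' x = 0 := by
        intro a' ha' x hx
        rcases shape a' with ⟨d, hd, hd'⟩ | ⟨d, f, hdf, hd, hf, hdf'⟩
        · have : w = d := by
            by_contra hne
            rw [hd' w hne] at ha'
            exact n10 ha'.symm
          exact hd' x (by rw [← this]; exact hx)
        · exfalso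
          by_cases hwd : w = d
          · rw [hwd, hd] at ha'; exact n12 ha'.symm
          · by_cases hwf : w = f
            · rw [hwf, hf] at ha'; exact n12 ha'.symm
            · rw [hdf' w hwd hwf] at ha'; exact n10 ha'.symm
      have hww : y w w = 0 := yn' w w (SimpleGraph.irrefl G)
      have haw : a ≠ w := by
        rintro rfl
        rw [hww] at h1; exact n20 h1.symm
      have hcw : c ≠ w := by
        rintro rfl
        rw [hww] at h2; exact n20 h2.symm
      refine ⟨haw, hcw.symm, hac, ?_, ?_, ?_, ?_⟩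
      · rw [hH, hwa]; exact n10
      · rw [hH, h2]; exact n20
      · rw [hH, leaf a hwa c hcw]; simp
      · intro x z hxz hx
        rw [hH] at hxz
        rcases hx with rfl | rfl | rfl
        · by_cases hz : z = w
          · exact Or.inr (Or.inl hz)
          · exact absurd (leaf x hwa z hz) hxz
        · by_cases hz1 : z = a
          · exact Or.inl hz1
          · by_cases hz2 : z = c
            · exact Or.inr (Or.inr hz2)
            · exact absurd (h3 z hz1 hz2) hxz
        · by_cases hz : z = w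
          · exact Or.inr (Or.inl hz)
          · exact absurd (leaf x hwc z hz) hxz
    intro v
    rcases shape v with ⟨w, hw, hw'⟩ | ⟨a, c, hac, ha, hc, hac'⟩
    · -- v is a leaf with centre w
      have hwv : y w v = 2 := by rw [ya' w v, hw]; decide
      rcases shape w with ⟨d, hd, hd'⟩ | ⟨a, c, hac, ha, hc, hac'⟩
      · exfalso
        by_cases hvd : v = d
        · rw [hvd, hd] at hwv; exact n12 hwv
        · rw [hd' v hvd] at hwv; exact n20 hwv.symm
      · obtain ⟨k1, k2, k3, k4, k5, k6, k7⟩ := centre w a c hac ha hc hac'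
        refine ⟨a, w, c, k1, k2, k3, k4, k5, k6, ?_, k7⟩
        by_cases hva : v = a
        · exact Or.inl hva
        · by_cases hvc : v = c
          · exact Or.inr (Or.inr hvc)
          · rw [hac' v hva hvc] at hwv; exact absurd hwv.symm n20
    · obtain ⟨k1, k2, k3, k4, k5, k6, k7⟩ := centre v a c hac ha hc hac'
      exact ⟨a, v, c, k1, k2, k3, k4, k5, k6, Or.inr (Or.inl rfl), k7⟩

theorem main (hcub : ∀ v : V, G.degree v = 3) (hcard : 4 ≤ Fintype.card V)
    (hconn : ∀ S : Finset V, S.card ≤ 2 → (G.induce ((↑S : Set V)ᶜ)).Connected)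
    (h3 : 3 ∣ Fintype.card V) (hgood : Good G Finset.univ) :
    ∃ H : SimpleGraph V, H ≤ G ∧ ∀ v : V, ∃ a b c : V,
        a ≠ b ∧ b ≠ c ∧ a ≠ c ∧ H.Adj a b ∧ H.Adj b c ∧ ¬ H.Adj a c ∧
        (v = a ∨ v = b ∨ v = c) ∧
        ∀ x y : V, H.Adj x y → (x = a ∨ x = b ∨ x = c) → (y = a ∨ y = b ∨ y = c) := by
  have hE : E3 G := E3_of_connected hcub hconn
  have hp := hgood.prp hE hcub hcard
  have ht : ∑ _v : V, (1 : ZMod 3) = 0 := by
    rw [Finset.sum_const, Finset.card_univ, nsmul_eq_mul, mul_one]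
    obtain ⟨m, hm⟩ := h3
    rw [hm, Nat.cast_mul]
    have : ((3 : ℕ) : ZMod 3) = 0 := by decide
    rw [this, zero_mul]
  exact factor_of_ext hcub (hp.2.2 rfl (fun _ => 1) (fun _ => 0) ht)

end H32P3
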